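import Pool.Agent.W_7d29a1_X50.Jen

/-!
STORM X, (ES'): the quenched law of the whole path. A path of length `N` from the origin is a finite set `S ⊆ range N` (the times of
its up steps); its position at the time `t` is `pos S t`. `GS` is its Gibbs weight. Marginals: the position at one time, entrance and
displacement of a block (`Gn` of `W_7d29a1_X50/Jen.lean`), and the upper bound of the exponential moments of additive functionals of the
positions at the times of a partition of a block, relative to the weight of the block (rerouting). (helper89)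
-/

namespace Pool.Agent.W_7d29a1_X

open Finset Pool.Agent.W_7d29a1_F Pool.Agent.W_7d29a1_X50

noncomputable section

/-- The position at the time `t`. -/
def pos (S : Finset ℕ) (t : ℕ) : ℤ := ((S ∩ range t).card : ℤ)

/-- The normalised weight of the first `t` steps. -/
def pth (μ : MeasureTheory.Measure ℝ) (s : ℝ) (η : Env) (t : ℕ) (S : Finset ℕ) : ℝ :=
  Real.exp (s * (pos S t : ℝ) - t * lam μ s) * ∏ i ∈ range t, Real.exp (η ((i : ℤ) + 1, pos S (i + 1)))

/-- The Gibbs weight of the path `S`, length `N`. -/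
def GS (μ : MeasureTheory.Measure ℝ) (s : ℝ) (η : Env) (N : ℕ) (S : Finset ℕ) : ℝ :=
  pth μ s η N S / Real.exp (V μ s η 0 N)

variable {μ : MeasureTheory.Measure ℝ} {s : ℝ}

theorem pos_nonneg (S : Finset ℕ) (t : ℕ) : 0 ≤ pos S t := Int.natCast_nonneg _

theorem pos_le (S : Finset ℕ) (t : ℕ) : pos S t ≤ t := by
  unfold pos
  have h := card_le_card (inter_subset_right : S ∩ range t ⊆ range t)
  rw [card_range] at h
  exact_mod_cast h

theorem pos_zero (S : Finset ℕ) : pos S 0 = 0 := by simp [pos]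

theorem pos_inter (S : Finset ℕ) {t u : ℕ} (h : u ≤ t) : pos (S ∩ range t) u = pos S u := by
  unfold pos
  rw [inter_assoc, inter_eq_right.2 (range_subset_range.2 h)]

theorem pos_insert {S : Finset ℕ} {t u : ℕ} (h : u ≤ t) : pos (insert t S) u = pos S u := by
  unfold pos
  rw [insert_inter_of_notMem]
  rw [mem_range]
  omega

theorem pos_insert_succ {S : Finset ℕ} {t : ℕ} (h : S ⊆ range t) : pos (insert t S) (t + 1) = pos S t + 1 := by
  unfold pos
  have h1 : insert t S ∩ range (t + 1) = insert t S := by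
    rw [inter_eq_left]
    refine insert_subset (by simp) (h.trans (range_subset_range.2 (by omega)))
  have h2 : t ∉ S := fun h3 => by
    have := h h3
    simp at this
  rw [h1, card_insert_of_notMem h2, inter_eq_left.2 h]
  push_cast
  ring

theorem pos_succ_of {S : Finset ℕ} {t : ℕ} (h : S ⊆ range t) : pos S (t + 1) = pos S t := by
  unfold pos
  rw [inter_eq_left.2 h, inter_eq_left.2 (h.trans (range_subset_range.2 (by omega)))]

theorem inter_insert {S : Finset ℕ} {t u : ℕ} (h : u ≤ t) : insert t S ∩ range u = S ∩ range u := by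
  rw [insert_inter_of_notMem]
  rw [mem_range]
  omega

theorem pth_nonneg (η : Env) (t : ℕ) (S : Finset ℕ) : 0 ≤ pth μ s η t S :=
  mul_nonneg (Real.exp_pos _).le (prod_nonneg fun _ _ => (Real.exp_pos _).le)

theorem pth_succ_of (η : Env) {t : ℕ} {S : Finset ℕ} (h : S ⊆ range t) :
    pth μ s η (t + 1) S = Real.exp (η ((t : ℤ) + 1, pos S t)) * Real.exp (-lam μ s) * pth μ s η t S := by
  unfold pth
  rw [prod_range_succ, pos_succ_of h]
  have e1 : Real.exp (s * (pos S t : ℝ) - ((t + 1 : ℕ) : ℝ) * lam μ s) =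
      Real.exp (-lam μ s) * Real.exp (s * (pos S t : ℝ) - t * lam μ s) := by
    rw [← Real.exp_add]
    congr 1
    push_cast
    ring
  rw [e1]
  ring

theorem pth_succ_insert (η : Env) {t : ℕ} {S : Finset ℕ} (h : S ⊆ range t) :
    pth μ s η (t + 1) (insert t S) =
      Real.exp (η ((t : ℤ) + 1, pos S t + 1)) * Real.exp (-lam μ s) * (Real.exp s * pth μ s η t S) := by
  unfold pth
  rw [prod_range_succ, pos_insert_succ h]
  have e0 : ∏ i ∈ range t, Real.exp (η ((i : ℤ) + 1, pos (insert t S) (i + 1))) =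
      ∏ i ∈ range t, Real.exp (η ((i : ℤ) + 1, pos S (i + 1))) := by
    refine prod_congr rfl fun i hi => ?_
    rw [mem_range] at hi
    rw [pos_insert (by omega)]
  rw [e0]
  have e1 : Real.exp (s * ((pos S t + 1 : ℤ) : ℝ) - ((t + 1 : ℕ) : ℝ) * lam μ s) =
      Real.exp (-lam μ s) * (Real.exp s * Real.exp (s * (pos S t : ℝ) - t * lam μ s)) := by
    rw [← Real.exp_add, ← Real.exp_add]
    congr 1
    push_cast
    ring
  rw [e1]
  ring

theorem Zr_zero89 (R : Set Pt) (η : Env) (a : Pt) (y : ℤ) : Zr R η a 0 y = if y = 0 then 1 else 0 := rfl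

theorem Zr_succ89 (R : Set Pt) (η : Env) (a : Pt) (n : ℕ) (y : ℤ) :
    Zr R η a (n + 1) y = R.indicator (fun p => Real.exp (η p)) (a.1 + (n + 1), a.2 + y) *
      (Zr R η a n y + Zr R η a n (y - 1)) := rfl

/-- The last step of a weight. -/
theorem W_succ (η : Env) (a : Pt) (m : ℕ) (y : ℤ) :
    W μ s η a (m + 1) y = Real.exp (η (a.1 + (m + 1), a.2 + y)) * Real.exp (-lam μ s) *
      (W μ s η a m y + Real.exp s * W μ s η a m (y - 1)) := by
  unfold W WR
  rw [Zr_succ89, Set.indicator_of_mem (Set.mem_univ _)]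
  have e1 : Real.exp (s * (y : ℝ) - ((m + 1 : ℕ) : ℝ) * lam μ s) =
      Real.exp (-lam μ s) * Real.exp (s * (y : ℝ) - m * lam μ s) := by
    rw [← Real.exp_add]
    congr 1
    push_cast
    ring
  have e2 : Real.exp (s * (y : ℝ) - m * lam μ s) =
      Real.exp s * Real.exp (s * ((y - 1 : ℤ) : ℝ) - m * lam μ s) := by
    rw [← Real.exp_add]
    congr 1
    push_cast
    ring
  rw [e1, ← mul_assoc (Real.exp s), ← e2]
  ring

/-- The weight of the paths with the position `x` at the time `t`, with a weight function `F`. -/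
def Mt (μ : MeasureTheory.Measure ℝ) (s : ℝ) (η : Env) (t : ℕ) (F : Finset ℕ → ℝ) (x : ℤ) : ℝ :=
  ∑ S ∈ (range t).powerset, if pos S t = x then pth μ s η t S * F S else 0

theorem Mt_nonneg (η : Env) (t : ℕ) {F : Finset ℕ → ℝ} (hF : ∀ S, 0 ≤ F S) (x : ℤ) : 0 ≤ Mt μ s η t F x := by
  unfold Mt
  refine sum_nonneg fun S _ => ?_
  split_ifs
  · exact mul_nonneg (pth_nonneg _ _ _) (hF S)
  · exact le_rfl

theorem Mt_eq_zero (η : Env) (t : ℕ) (F : Finset ℕ → ℝ) {x : ℤ} (h : ¬ (0 ≤ x ∧ x ≤ t)) : Mt μ s η t F x = 0 := by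
  unfold Mt
  refine sum_eq_zero fun S _ => if_neg fun hS => h ?_
  rw [← hS]
  exact ⟨pos_nonneg _ _, pos_le _ _⟩

/-- The last step. -/
theorem Mt_succ (η : Env) (t : ℕ) (F : Finset ℕ → ℝ) (hF : ∀ S, S ⊆ range t → F (insert t S) = F S) (x : ℤ) :
    Mt μ s η (t + 1) F x = Real.exp (η ((t : ℤ) + 1, x)) * Real.exp (-lam μ s) *
      (Mt μ s η t F x + Real.exp s * Mt μ s η t F (x - 1)) := by
  unfold Mt
  rw [range_add_one, sum_powerset_insert (by simp)]
  have h1 : ∑ S ∈ (range t).powerset, (if pos S (t + 1) = x then pth μ s η (t + 1) S * F S else 0) =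
      Real.exp (η ((t : ℤ) + 1, x)) * Real.exp (-lam μ s) *
        ∑ S ∈ (range t).powerset, (if pos S t = x then pth μ s η t S * F S else 0) := by
    rw [mul_sum]
    refine sum_congr rfl fun S hS => ?_
    rw [mem_powerset] at hS
    rw [pos_succ_of hS]
    by_cases hx : pos S t = x
    · rw [if_pos hx, if_pos hx, pth_succ_of η hS, hx]
      ring
    · rw [if_neg hx, if_neg hx, mul_zero]
  have h2 : ∑ S ∈ (range t).powerset, (if pos (insert t S) (t + 1) = x then
        pth μ s η (t + 1) (insert t S) * F (insert t S) else 0) =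
      Real.exp (η ((t : ℤ) + 1, x)) * Real.exp (-lam μ s) *
        (Real.exp s * ∑ S ∈ (range t).powerset, (if pos S t = x - 1 then pth μ s η t S * F S else 0)) := by
    rw [mul_sum, mul_sum]
    refine sum_congr rfl fun S hS => ?_
    rw [mem_powerset] at hS
    rw [pos_insert_succ hS]
    by_cases hx : pos S t = x - 1
    · rw [if_pos hx, if_pos (by omega), pth_succ_insert η hS, hF S hS, hx]
      have e1 : x - 1 + 1 = x := by ring
      rw [e1]
      ring
    · rw [if_neg hx, if_neg (by omega), mul_zero, mul_zero]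
  rw [h1, h2]
  ring

/-- MARKOV: the weight of the paths with the position `x'` at the time `t + m`, with a weight function of the first `t` steps. -/
theorem Mt_add (η : Env) (t m : ℕ) (F : Finset ℕ → ℝ) (x' : ℤ) :
    Mt μ s η (t + m) (fun S => F (S ∩ range t)) x' =
      ∑ x ∈ Icc (0 : ℤ) t, Mt μ s η t F x * W μ s η ((t : ℤ), x) m (x' - x) := by
  induction m generalizing x' with
  | zero =>
    have h1 : ∀ x : ℤ, W μ s η ((t : ℤ), x) 0 (x' - x) = if x = x' then 1 else 0 := by
      intro x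
      unfold W WR
      rw [Zr_zero89]
      by_cases hx : x = x'
      · subst hx
        simp
      · rw [if_neg hx, if_neg (by omega), mul_zero]
    simp only [h1, mul_ite, mul_one, mul_zero]
    have h2 : Mt μ s η (t + 0) (fun S => F (S ∩ range t)) x' = Mt μ s η t F x' := by
      unfold Mt
      rw [Nat.add_zero]
      refine sum_congr rfl fun S hS => ?_
      rw [mem_powerset] at hS
      beta_reduce
      rw [inter_eq_left.2 hS]
    rw [h2]
    by_cases hx : 0 ≤ x' ∧ x' ≤ t
    · rw [sum_eq_single_of_mem x' (mem_Icc.2 hx) fun b _ hb => if_neg hb, if_pos rfl]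
    · rw [Mt_eq_zero η t F hx]
      refine (sum_eq_zero fun x hxx => ?_).symm
      rw [mem_Icc] at hxx
      rw [if_neg]
      rintro rfl
      exact hx hxx
  | succ m ih =>
    have h0 : ∀ S, S ⊆ range (t + m) → (fun S => F (S ∩ range t)) (insert (t + m) S) = (fun S => F (S ∩ range t)) S := by
      intro S _
      show F (insert (t + m) S ∩ range t) = F (S ∩ range t)
      rw [inter_insert (by omega)]
    rw [← Nat.add_assoc, Mt_succ η (t + m) _ h0, ih, ih, mul_sum, ← sum_add_distrib, mul_sum]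
    refine sum_congr rfl fun x _ => ?_
    rw [W_succ]
    have e1 : ((t + m : ℕ) : ℤ) + 1 = ((t : ℤ), x).1 + ((m : ℤ) + 1) := by
      push_cast
      ring
    have e2 : x' = ((t : ℤ), x).2 + (x' - x) := by
      show x' = x + (x' - x)
      ring
    have e3 : x' - 1 - x = x' - x - 1 := by ring
    have e4 : ((((t + m : ℕ) : ℤ) + 1, x') : Pt) = (((t : ℤ), x).1 + ((m : ℤ) + 1), ((t : ℤ), x).2 + (x' - x)) :=
      Prod.ext e1 e2
    rw [e4, e3]
    ring

/-- The partition function from the paths. -/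
theorem Mt_one (η : Env) (t : ℕ) (x : ℤ) : Mt μ s η t (fun _ => 1) x = W μ s η 0 t x := by
  have h := Mt_add (μ := μ) (s := s) η 0 t (fun _ => 1) x
  rw [Nat.zero_add] at h
  rw [h]
  have e1 : Icc (0 : ℤ) ((0 : ℕ) : ℤ) = {0} := by simp
  rw [e1, sum_singleton]
  have e2 : Mt μ s η 0 (fun _ => 1) 0 = 1 := by
    unfold Mt pth
    simp [pos]
  rw [e2, one_mul, sub_zero]
  rfl

/-- The sum over all paths, with a weight function of the first `t` steps. -/
theorem sum_pth (η : Env) (t k : ℕ) (F : Finset ℕ → ℝ) :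
    ∑ S ∈ (range (t + k)).powerset, pth μ s η (t + k) S * F (S ∩ range t) =
      ∑ x ∈ Icc (0 : ℤ) t, Mt μ s η t F x * Real.exp (V μ s η ((t : ℤ), x) k) := by
  have h1 : ∑ S ∈ (range (t + k)).powerset, pth μ s η (t + k) S * F (S ∩ range t) =
      ∑ x' ∈ Icc (0 : ℤ) ((t + k : ℕ) : ℤ), Mt μ s η (t + k) (fun S => F (S ∩ range t)) x' := by
    unfold Mt
    rw [sum_comm]
    refine sum_congr rfl fun S _ => ?_
    rw [sum_ite_eq, if_pos]
    rw [mem_Icc]
    exact ⟨pos_nonneg _ _, pos_le _ _⟩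
  rw [h1]
  simp only [Mt_add]
  rw [sum_comm]
  refine sum_congr rfl fun x hx => ?_
  rw [mem_Icc] at hx
  rw [← mul_sum]
  congr 1
  rw [exp_V]
  unfold WS
  have h2 : ∑ y ∈ (Icc (0 : ℤ) ((t + k : ℕ) : ℤ)).image (fun y => y - x), W μ s η ((t : ℤ), x) k y =
      ∑ y ∈ Icc (0 : ℤ) ((t + k : ℕ) : ℤ), W μ s η ((t : ℤ), x) k (y - x) :=
    sum_image fun a _ b _ hab => by simpa using hab
  rw [← h2]
  symm
  refine sum_subset (fun y hy => ?_) fun y _ hy => W_eq_zero η _ fun hy' => hy (mem_Icc.2 hy')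
  rw [mem_Icc] at hy
  rw [mem_image]
  refine ⟨y + x, mem_Icc.2 ⟨by omega, ?_⟩, by ring⟩
  push_cast
  omega

theorem GS_nonneg (η : Env) (N : ℕ) (S : Finset ℕ) : 0 ≤ GS μ s η N S := div_nonneg (pth_nonneg _ _ _) (Real.exp_pos _).le

theorem GS_sum (η : Env) (N : ℕ) : ∑ S ∈ (range N).powerset, GS μ s η N S = 1 := by
  unfold GS
  rw [← sum_div]
  have h := sum_pth (μ := μ) (s := s) η 0 N (fun _ => 1)
  rw [Nat.zero_add] at h
  simp only [mul_one] at h
  rw [h]
  have e1 : Icc (0 : ℤ) ((0 : ℕ) : ℤ) = {0} := by simp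
  have e2 : Mt μ s η 0 (fun _ => 1) 0 = 1 := by
    unfold Mt pth
    simp [pos]
  rw [e1, sum_singleton, e2, one_mul]
  have e3 : ((((0 : ℕ) : ℤ), 0) : Pt) = 0 := rfl
  rw [e3, div_self (Real.exp_pos _).ne']

/-- A function of the position at one time. -/
theorem GS_pos (η : Env) (t k : ℕ) (f : ℤ → ℝ) :
    ∑ S ∈ (range (t + k)).powerset, GS μ s η (t + k) S * f (pos S t) =
      ∑ x ∈ Icc (0 : ℤ) t, W μ s η 0 t x * Real.exp (V μ s η ((t : ℤ), x) k) / Real.exp (V μ s η 0 (t + k)) * f x := by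
  have h := sum_pth (μ := μ) (s := s) η t k (fun S => f (pos S t))
  have h1 : ∀ x, Mt μ s η t (fun S => f (pos S t)) x = W μ s η 0 t x * f x := by
    intro x
    rw [← Mt_one]
    unfold Mt
    rw [sum_mul]
    refine sum_congr rfl fun S _ => ?_
    by_cases hx : pos S t = x
    · rw [if_pos hx, if_pos hx]
      beta_reduce
      rw [hx]
      ring
    · rw [if_neg hx, if_neg hx, zero_mul]
  simp only [h1, pos_inter _ le_rfl] at h
  have h2 : ∑ S ∈ (range (t + k)).powerset, GS μ s η (t + k) S * f (pos S t) =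
      (∑ S ∈ (range (t + k)).powerset, pth μ s η (t + k) S * f (pos S t)) / Real.exp (V μ s η 0 (t + k)) := by
    rw [sum_div]
    refine sum_congr rfl fun S _ => ?_
    unfold GS
    ring
  rw [h2, h, sum_div]
  refine sum_congr rfl fun x _ => ?_
  ring

/-- Entrance and displacement of a block: the law `Gn`. -/
theorem GS_Gn (η : Env) (a m k : ℕ) (f : ℤ → ℤ → ℝ) :
    ∑ S ∈ (range (a + m + k)).powerset, GS μ s η (a + m + k) S * f (pos S a) (pos S (a + m) - pos S a) =
      ∑ q ∈ Pr a m, Gn μ s η a m k q * f q.1 q.2 := by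
  have h := sum_pth (μ := μ) (s := s) η (a + m) k (fun S => f (pos S a) (pos S (a + m) - pos S a))
  have h1 : ∀ x', Mt μ s η (a + m) (fun S => f (pos S a) (pos S (a + m) - pos S a)) x' =
      ∑ x ∈ Icc (0 : ℤ) a, W μ s η 0 a x * f x (x' - x) * W μ s η ((a : ℤ), x) m (x' - x) := by
    intro x'
    have h2 := Mt_add (μ := μ) (s := s) η a m (fun S => f (pos S a) (x' - pos S a)) x'
    have h3 : Mt μ s η (a + m) (fun S => f (pos S a) (pos S (a + m) - pos S a)) x' =
        Mt μ s η (a + m) (fun S => f (pos (S ∩ range a) a) (x' - pos (S ∩ range a) a)) x' := by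
      unfold Mt
      refine sum_congr rfl fun S _ => ?_
      by_cases hx : pos S (a + m) = x'
      · rw [if_pos hx, if_pos hx]
        beta_reduce
        rw [pos_inter _ le_rfl, hx]
      · rw [if_neg hx, if_neg hx]
    rw [h3, h2]
    refine sum_congr rfl fun x _ => ?_
    congr 1
    rw [← Mt_one]
    unfold Mt
    rw [sum_mul]
    refine sum_congr rfl fun S _ => ?_
    by_cases hx : pos S a = x
    · rw [if_pos hx, if_pos hx]
      beta_reduce
      rw [hx]
      ring
    · rw [if_neg hx, if_neg hx, zero_mul]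
  have h0 : ∀ S : Finset ℕ, f (pos (S ∩ range (a + m)) a) (pos (S ∩ range (a + m)) (a + m) - pos (S ∩ range (a + m)) a) =
      f (pos S a) (pos S (a + m) - pos S a) := by
    intro S
    rw [pos_inter _ le_rfl, pos_inter _ (by omega)]
  simp only [h1, h0] at h
  have h2 : ∑ S ∈ (range (a + m + k)).powerset, GS μ s η (a + m + k) S * f (pos S a) (pos S (a + m) - pos S a) =
      (∑ S ∈ (range (a + m + k)).powerset, pth μ s η (a + m + k) S * f (pos S a) (pos S (a + m) - pos S a)) /
        Real.exp (V μ s η 0 (a + m + k)) := by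
    rw [sum_div]
    refine sum_congr rfl fun S _ => ?_
    unfold GS
    ring
  rw [h2, h]
  simp only [sum_mul]
  rw [sum_comm, sum_div]
  unfold Pr
  rw [sum_product]
  refine sum_congr rfl fun x hx => ?_
  rw [mem_Icc] at hx
  rw [sum_div]
  have h3 : ∑ y ∈ (Icc (0 : ℤ) ((a + m : ℕ) : ℤ)).image (fun y => y - x), Gn μ s η a m k (x, y) * f x y =
      ∑ y ∈ Icc (0 : ℤ) ((a + m : ℕ) : ℤ), Gn μ s η a m k (x, y - x) * f x (y - x) :=
    sum_image fun a _ b _ hab => by simpa using hab
  have h4 : ∑ y ∈ Icc (0 : ℤ) ((a + m : ℕ) : ℤ), W μ s η 0 a x * f x (y - x) * W μ s η ((a : ℤ), x) m (y - x) *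
      Real.exp (V μ s η (((a + m : ℕ) : ℤ), y) k) / Real.exp (V μ s η 0 (a + m + k)) =
      ∑ y ∈ Icc (0 : ℤ) ((a + m : ℕ) : ℤ), Gn μ s η a m k (x, y - x) * f x (y - x) := by
    refine sum_congr rfl fun y _ => ?_
    unfold Gn Aw
    have e1 : ((((a + m : ℕ) : ℤ), y) : Pt) = ((a : ℤ) + m, x + (y - x)) := by
      ext
      · show ((a + m : ℕ) : ℤ) = (a : ℤ) + m
        push_cast
        ring
      · show y = x + (y - x)
        ring
    rw [e1]
    ring
  rw [h4, ← h3]
  symm
  refine sum_subset (fun y hy => ?_) fun y _ hy => ?_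
  · rw [mem_Icc] at hy
    rw [mem_image]
    refine ⟨y + x, mem_Icc.2 ⟨by omega, ?_⟩, by ring⟩
    push_cast
    omega
  · unfold Gn
    rw [W_eq_zero η ((a : ℤ), x) fun hy' => hy (mem_Icc.2 hy')]
    simp

end

end Pool.Agent.W_7d29a1_X
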