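import Pool.Agent.W_7d29a1_X.Path89

/-!
STORM X, (ES'), piece (E5) = (H1) = (NR): rerouting. The total cost of the pieces of a block, minus their lucks, exceeds the cost of the
block by a logarithm only, under the Gibbs law of the path, in every environment. (helper89)
-/

namespace Pool.Agent.W_7d29a1_X

open Finset Pool.Agent.W_7d29a1_F Pool.Agent.W_7d29a1_X50

set_option maxHeartbeats 400000

noncomputable section

variable {μ : MeasureTheory.Measure ℝ} {s : ℝ}

/-- The sum over the pieces (durations `ds`, from the time `t` on) of a cost `c` (start row, start site, duration, displacement). -/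
def ex (c : ℕ → ℤ → ℕ → ℤ → ℝ) (S : Finset ℕ) : ℕ → List ℕ → ℝ
  | _, [] => 0
  | t, d :: ds => c t (pos S t) d (pos S (t + d) - pos S t) + ex c S (t + d) ds

theorem ex_nil (c : ℕ → ℤ → ℕ → ℤ → ℝ) (S : Finset ℕ) (t : ℕ) : ex c S t [] = 0 := rfl

theorem ex_cons (c : ℕ → ℤ → ℕ → ℤ → ℝ) (S : Finset ℕ) (t d : ℕ) (ds : List ℕ) :
    ex c S t (d :: ds) = c t (pos S t) d (pos S (t + d) - pos S t) + ex c S (t + d) ds := rfl

theorem pos_mono (S : Finset ℕ) {t u : ℕ} (h : t ≤ u) : pos S t ≤ pos S u := by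
  unfold pos
  exact_mod_cast card_le_card (inter_subset_inter_left (range_subset_range.2 h))

theorem pos_sub_le (S : Finset ℕ) (t d : ℕ) : pos S (t + d) - pos S t ≤ d := by
  unfold pos
  have h1 : (S ∩ range (t + d)) ⊆ (S ∩ range t) ∪ Ico t (t + d) := by
    intro i hi
    rw [mem_inter, mem_range] at hi
    rw [mem_union, mem_inter, mem_range, mem_Ico]
    by_cases h : i < t
    · exact Or.inl ⟨hi.1, h⟩
    · exact Or.inr ⟨by omega, hi.2⟩
  have h2 := (card_le_card h1).trans (card_union_le _ _)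
  rw [Nat.card_Ico] at h2
  omega

theorem pos_sub_nonneg (S : Finset ℕ) (t d : ℕ) : 0 ≤ pos S (t + d) - pos S t := by
  have := pos_mono S (show t ≤ t + d by omega)
  omega

/-- One piece. -/
theorem Mt_piece (η : Env) (t d : ℕ) {F : Finset ℕ → ℝ} (hF : ∀ S, 0 ≤ F S) {c : ℤ → ℤ → ℝ}
    (H : ∀ x y : ℤ, 0 ≤ y → y ≤ d → W μ s η ((t : ℤ), x) d y * Real.exp (c x y) ≤ 1) (x' : ℤ) :
    Mt μ s η (t + d) (fun S => F (S ∩ range t) * Real.exp (c (pos S t) (pos S (t + d) - pos S t))) x' ≤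
      ∑ x ∈ Icc (0 : ℤ) t, if 0 ≤ x' - x ∧ x' - x ≤ d then Mt μ s η t F x else 0 := by
  have h1 : Mt μ s η (t + d) (fun S => F (S ∩ range t) * Real.exp (c (pos S t) (pos S (t + d) - pos S t))) x' =
      Mt μ s η (t + d) (fun S => (fun S => F S * Real.exp (c (pos S t) (x' - pos S t))) (S ∩ range t)) x' := by
    unfold Mt
    refine sum_congr rfl fun S _ => ?_
    by_cases hx : pos S (t + d) = x'
    · rw [if_pos hx, if_pos hx]
      beta_reduce
      rw [pos_inter _ le_rfl, hx]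
    · rw [if_neg hx, if_neg hx]
  rw [h1]
  refine le_of_eq_of_le (Mt_add η t d (fun S => F S * Real.exp (c (pos S t) (x' - pos S t))) x') ?_
  refine sum_le_sum fun x _ => ?_
  have h2 : Mt μ s η t (fun S => F S * Real.exp (c (pos S t) (x' - pos S t))) x =
      Mt μ s η t F x * Real.exp (c x (x' - x)) := by
    unfold Mt
    rw [sum_mul]
    refine sum_congr rfl fun S _ => ?_
    by_cases hx : pos S t = x
    · rw [if_pos hx, if_pos hx]
      beta_reduce
      rw [hx]
      ring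
    · rw [if_neg hx, if_neg hx, zero_mul]
  rw [h2]
  by_cases hx : 0 ≤ x' - x ∧ x' - x ≤ d
  · rw [if_pos hx]
    have h3 := mul_le_mul_of_nonneg_left (H x (x' - x) hx.1 hx.2) (Mt_nonneg (μ := μ) (s := s) η t hF x)
    calc Mt μ s η t F x * Real.exp (c x (x' - x)) * W μ s η ((t : ℤ), x) d (x' - x)
        = Mt μ s η t F x * (W μ s η ((t : ℤ), x) d (x' - x) * Real.exp (c x (x' - x))) := by ring
      _ ≤ _ := by linarith
  · rw [if_neg hx, W_eq_zero η _ hx, mul_zero]

/-- Sum over the end point. -/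
theorem sum_piece (t d : ℕ) {M : ℤ → ℝ} (hM : ∀ x, 0 ≤ M x) :
    ∑ x' ∈ Icc (0 : ℤ) ((t + d : ℕ) : ℤ), ∑ x ∈ Icc (0 : ℤ) t, (if 0 ≤ x' - x ∧ x' - x ≤ d then M x else 0) ≤
      (d + 1) * ∑ x ∈ Icc (0 : ℤ) t, M x := by
  rw [sum_comm, mul_sum]
  refine sum_le_sum fun x _ => ?_
  rw [← sum_filter, sum_const, nsmul_eq_mul]
  refine mul_le_mul_of_nonneg_right ?_ (hM x)
  have h1 : (Icc (0 : ℤ) ((t + d : ℕ) : ℤ)).filter (fun x' => 0 ≤ x' - x ∧ x' - x ≤ d) ⊆ Icc x (x + d) := by
    intro y hy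
    rw [mem_filter] at hy
    rw [mem_Icc]
    omega
  have h2 := card_le_card h1
  rw [Int.card_Icc] at h2
  have h3 : ((Icc (0 : ℤ) ((t + d : ℕ) : ℤ)).filter (fun x' => 0 ≤ x' - x ∧ x' - x ≤ d)).card ≤ d + 1 := by omega
  exact_mod_cast h3

theorem ex_inter (c : ℕ → ℤ → ℕ → ℤ → ℝ) (S : Finset ℕ) {t u : ℕ} (ds : List ℕ) (h : t + ds.sum ≤ u) :
    ex c (S ∩ range u) t ds = ex c S t ds := by
  induction ds generalizing t with
  | nil => rfl
  | cons d ds ih =>
    rw [List.sum_cons] at h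
    rw [ex_cons, ex_cons, ih (by omega), pos_inter _ (by omega), pos_inter _ (by omega)]

/-- All the pieces. -/
theorem Mt_ex (η : Env) {n : ℕ} {c : ℕ → ℤ → ℕ → ℤ → ℝ} (ds : List ℕ) (t : ℕ)
    (H : ∀ (u : ℕ) (d : ℕ), d ∈ ds → t ≤ u → u + d ≤ t + ds.sum → ∀ x y : ℤ, 0 ≤ y → y ≤ d →
      W μ s η ((u : ℤ), x) d y * Real.exp (c u x d y) ≤ 1)
    (hn : ds.sum ≤ n) {F : Finset ℕ → ℝ} (hF : ∀ S, 0 ≤ F S) (b : ℤ) :
    Mt μ s η (t + ds.sum) (fun S => F (S ∩ range t) * Real.exp (ex c S t ds)) b ≤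
      ((n : ℝ) + 1) ^ ds.length * ∑ x ∈ Icc (0 : ℤ) t, Mt μ s η t F x := by
  induction ds generalizing t F with
  | nil =>
    have h1 : Mt μ s η (t + ([] : List ℕ).sum) (fun S => F (S ∩ range t) * Real.exp (ex c S t [])) b =
        Mt μ s η t F b := by
      unfold Mt
      rw [List.sum_nil, Nat.add_zero]
      refine sum_congr rfl fun S hS => ?_
      rw [mem_powerset] at hS
      beta_reduce
      rw [inter_eq_left.2 hS, ex_nil, Real.exp_zero, mul_one]
    rw [h1, List.length_nil, pow_zero, one_mul]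
    by_cases hb : 0 ≤ b ∧ b ≤ t
    · exact single_le_sum (f := fun x => Mt μ s η t F x) (fun x _ => Mt_nonneg η t hF x) (mem_Icc.2 hb)
    · rw [Mt_eq_zero η t F hb]
      exact sum_nonneg fun x _ => Mt_nonneg η t hF x
  | cons d ds ih =>
    have hsum : (d :: ds).sum = d + ds.sum := List.sum_cons
    rw [hsum] at hn H
    have hn0 : (0 : ℝ) ≤ n := Nat.cast_nonneg _
    obtain ⟨F', hF'⟩ : ∃ F' : Finset ℕ → ℝ, F' = fun S => F (S ∩ range t) *
        Real.exp (c t (pos S t) d (pos S (t + d) - pos S t)) := ⟨_, rfl⟩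
    have hF'0 : ∀ S, 0 ≤ F' S := fun S => by
      rw [hF']
      exact mul_nonneg (hF _) (Real.exp_pos _).le
    have h1 : Mt μ s η (t + (d :: ds).sum) (fun S => F (S ∩ range t) * Real.exp (ex c S t (d :: ds))) b =
        Mt μ s η (t + d + ds.sum) (fun S => F' (S ∩ range (t + d)) * Real.exp (ex c S (t + d) ds)) b := by
      rw [hsum, ← Nat.add_assoc]
      congr 1
      funext S
      rw [hF']
      beta_reduce
      rw [inter_assoc, inter_eq_right.2 (range_subset_range.2 (show t ≤ t + d by omega)), pos_inter _ le_rfl,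
        pos_inter _ (show t ≤ t + d by omega), ex_cons, Real.exp_add, mul_assoc]
    rw [h1]
    have h2 := ih (t + d) (fun u d' hd' h3 h4 => H u d' (List.mem_cons_of_mem _ hd') (by omega) (by omega)) (by omega) hF'0
    refine h2.trans ?_
    have h3 : ∑ x' ∈ Icc (0 : ℤ) ((t + d : ℕ) : ℤ), Mt μ s η (t + d) F' x' ≤
        ((n : ℝ) + 1) * ∑ x ∈ Icc (0 : ℤ) t, Mt μ s η t F x := by
      have h4 : ∑ x' ∈ Icc (0 : ℤ) ((t + d : ℕ) : ℤ), Mt μ s η (t + d) F' x' ≤
          ∑ x' ∈ Icc (0 : ℤ) ((t + d : ℕ) : ℤ), ∑ x ∈ Icc (0 : ℤ) t,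
            (if 0 ≤ x' - x ∧ x' - x ≤ d then Mt μ s η t F x else 0) := by
        refine sum_le_sum fun x' _ => ?_
        rw [hF']
        exact Mt_piece (c := fun x y => c t x d y) η t d hF (H t d (by simp) le_rfl (by omega)) x'
      refine h4.trans ((sum_piece t d fun x => Mt_nonneg η t hF x).trans ?_)
      refine mul_le_mul_of_nonneg_right ?_ (sum_nonneg fun x _ => Mt_nonneg η t hF x)
      have h5 : (d : ℝ) ≤ n := by exact_mod_cast (show d ≤ n by omega)
      linarith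
    rw [List.length_cons, pow_succ, mul_assoc]
    exact mul_le_mul_of_nonneg_left h3 (by positivity)

/-- REROUTING, exponential form, for every environment: the pieces of the block `(T, T + n]` against the weight of the block. -/
theorem nr_exp (η : Env) (T k : ℕ) {c : ℕ → ℤ → ℕ → ℤ → ℝ} (ds : List ℕ)
    (H : ∀ (u : ℕ) (d : ℕ), d ∈ ds → T ≤ u → u + d ≤ T + ds.sum → ∀ x y : ℤ, 0 ≤ y → y ≤ d →
      W μ s η ((u : ℤ), x) d y * Real.exp (c u x d y) ≤ 1) :
    ∑ S ∈ (range (T + ds.sum + k)).powerset, GS μ s η (T + ds.sum + k) S * (Real.exp (ex c S T ds) *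
      W μ s η ((T : ℤ), pos S T) ds.sum (pos S (T + ds.sum) - pos S T)) ≤ ((ds.sum : ℝ) + 1) ^ ds.length := by
  obtain ⟨n, hn⟩ : ∃ n : ℕ, n = ds.sum := ⟨_, rfl⟩
  have h1 := sum_pth (μ := μ) (s := s) η (T + ds.sum) k (fun S => Real.exp (ex c S T ds) *
      W μ s η ((T : ℤ), pos S T) ds.sum (pos S (T + ds.sum) - pos S T))
  have h0 : ∀ S : Finset ℕ, Real.exp (ex c (S ∩ range (T + ds.sum)) T ds) *
      W μ s η ((T : ℤ), pos (S ∩ range (T + ds.sum)) T) ds.sum
        (pos (S ∩ range (T + ds.sum)) (T + ds.sum) - pos (S ∩ range (T + ds.sum)) T) =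
      Real.exp (ex c S T ds) * W μ s η ((T : ℤ), pos S T) ds.sum (pos S (T + ds.sum) - pos S T) := by
    intro S
    rw [ex_inter c S ds le_rfl, pos_inter _ le_rfl, pos_inter _ (by omega)]
  simp only [h0] at h1
  have h2 : ∑ S ∈ (range (T + ds.sum + k)).powerset, GS μ s η (T + ds.sum + k) S * (Real.exp (ex c S T ds) *
      W μ s η ((T : ℤ), pos S T) ds.sum (pos S (T + ds.sum) - pos S T)) =
      (∑ S ∈ (range (T + ds.sum + k)).powerset, pth μ s η (T + ds.sum + k) S * (Real.exp (ex c S T ds) *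
      W μ s η ((T : ℤ), pos S T) ds.sum (pos S (T + ds.sum) - pos S T))) / Real.exp (V μ s η 0 (T + ds.sum + k)) := by
    rw [sum_div]
    refine sum_congr rfl fun S _ => ?_
    unfold GS
    ring
  rw [h2, div_le_iff₀ (Real.exp_pos _), h1]
  -- each end point
  have h3 : ∀ b : ℤ, Mt μ s η (T + ds.sum) (fun S => Real.exp (ex c S T ds) *
      W μ s η ((T : ℤ), pos S T) ds.sum (pos S (T + ds.sum) - pos S T)) b ≤
      ((ds.sum : ℝ) + 1) ^ ds.length * W μ s η 0 (T + ds.sum) b := by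
    intro b
    have h4 : Mt μ s η (T + ds.sum) (fun S => Real.exp (ex c S T ds) *
        W μ s η ((T : ℤ), pos S T) ds.sum (pos S (T + ds.sum) - pos S T)) b =
        Mt μ s η (T + ds.sum) (fun S => (fun S => W μ s η ((T : ℤ), pos S T) ds.sum (b - pos S T)) (S ∩ range T) *
          Real.exp (ex c S T ds)) b := by
      unfold Mt
      refine sum_congr rfl fun S _ => ?_
      by_cases hx : pos S (T + ds.sum) = b
      · rw [if_pos hx, if_pos hx]
        beta_reduce
        rw [pos_inter _ le_rfl, hx]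
        ring
      · rw [if_neg hx, if_neg hx]
    rw [h4]
    have h7 := Mt_ex (n := ds.sum) (F := fun S => W μ s η ((T : ℤ), pos S T) ds.sum (b - pos S T)) η ds T H le_rfl
      (fun S => W_nonneg _ _ _ _) b
    refine h7.trans (mul_le_mul_of_nonneg_left (le_of_eq ?_) (by positivity))
    have h8 := W_add (μ := μ) (s := s) η 0 T ds.sum b
    rw [h8]
    refine sum_congr rfl fun x _ => ?_
    have h5 : Mt μ s η T (fun S => W μ s η ((T : ℤ), pos S T) ds.sum (b - pos S T)) x =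
        W μ s η 0 T x * W μ s η ((T : ℤ), x) ds.sum (b - x) := by
      rw [← Mt_one]
      unfold Mt
      rw [sum_mul]
      refine sum_congr rfl fun S _ => ?_
      by_cases hx : pos S T = x
      · rw [if_pos hx, if_pos hx]
        beta_reduce
        rw [hx]
        ring
      · rw [if_neg hx, if_neg hx, zero_mul]
    rw [h5]
    have h6 : (((0 : Pt).1 + (T : ℤ), (0 : Pt).2 + x) : Pt) = ((T : ℤ), x) := by simp
    rw [h6]
  have h4 : ∑ b ∈ Icc (0 : ℤ) ((T + ds.sum : ℕ) : ℤ), Mt μ s η (T + ds.sum) (fun S => Real.exp (ex c S T ds) *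
      W μ s η ((T : ℤ), pos S T) ds.sum (pos S (T + ds.sum) - pos S T)) b *
        Real.exp (V μ s η (((T + ds.sum : ℕ) : ℤ), b) k) ≤
      ∑ b ∈ Icc (0 : ℤ) ((T + ds.sum : ℕ) : ℤ), ((ds.sum : ℝ) + 1) ^ ds.length *
        (W μ s η 0 (T + ds.sum) b * Real.exp (V μ s η (((T + ds.sum : ℕ) : ℤ), b) k)) := by
    refine sum_le_sum fun b _ => ?_
    have h5 := mul_le_mul_of_nonneg_right (h3 b) (Real.exp_pos (V μ s η (((T + ds.sum : ℕ) : ℤ), b) k)).le
    linarith
  refine h4.trans (le_of_eq ?_)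
  rw [← mul_sum]
  congr 1
  have h5 := exp_V_add (μ := μ) (s := s) η 0 (T + ds.sum) k
  rw [h5]
  refine sum_congr rfl fun b _ => ?_
  have h6 : (((0 : Pt).1 + ((T + ds.sum : ℕ) : ℤ), (0 : Pt).2 + b) : Pt) = (((T + ds.sum : ℕ) : ℤ), b) := by simp
  rw [h6]

/-- Pure: an exponential moment bounds the second moment of the positive part. -/
theorem sq_of_exp {ι : Type*} (I : Finset ι) {G e : ι → ℝ} (hG : ∀ i ∈ I, 0 ≤ G i) (hG1 : ∑ i ∈ I, G i = 1) {M : ℝ}
    (hM : 1 ≤ M) (h : ∑ i ∈ I, G i * Real.exp (e i) ≤ M) :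
    ∑ i ∈ I, G i * (max (e i) 0) ^ 2 ≤ 2 * (Real.log M) ^ 2 + 4 := by
  have hM0 : 0 < M := by linarith
  have hL := Real.log_nonneg hM
  have h1 : ∀ i ∈ I, G i * (max (e i) 0) ^ 2 ≤ G i * (2 * (Real.log M) ^ 2) + 4 / M * (G i * Real.exp (e i)) := by
    intro i hi
    have h2 : (max (e i) 0) ^ 2 ≤ 2 * (Real.log M) ^ 2 + 4 / M * Real.exp (e i) := by
      obtain ⟨y, hy⟩ : ∃ y : ℝ, y = max (e i - Real.log M) 0 := ⟨_, rfl⟩
      have hy0 : 0 ≤ y := by
        rw [hy]
        exact le_max_right _ _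
      have h3 : max (e i) 0 ≤ Real.log M + y := by
        rw [hy]
        refine max_le ?_ (add_nonneg hL (le_max_right _ _))
        have := le_max_left (e i - Real.log M) 0
        linarith
      have h4 : (max (e i) 0) ^ 2 ≤ (Real.log M + y) ^ 2 := pow_le_pow_left₀ (le_max_right _ _) h3 2
      have h5 : y ^ 2 ≤ 2 * Real.exp (e i) / M := by
        rcases le_or_gt (e i - Real.log M) 0 with h6 | h6
        · have : y = 0 := by
            rw [hy]
            exact max_eq_right h6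
          rw [this, zero_pow two_ne_zero]
          positivity
        · have h7 : y = e i - Real.log M := by
            rw [hy]
            exact max_eq_left h6.le
          have h8 := Real.quadratic_le_exp_of_nonneg hy0
          have h9 : Real.exp y = Real.exp (e i) / M := by
            rw [h7, Real.exp_sub, Real.exp_log hM0]
          rw [h9] at h8
          have h10 : 2 * Real.exp (e i) / M = 2 * (Real.exp (e i) / M) := by ring
          rw [h10]
          linarith
      have h6 : 4 / M * Real.exp (e i) = 2 * (2 * Real.exp (e i) / M) := by ring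
      rw [h6]
      nlinarith [sq_nonneg (Real.log M - y)]
    have h3 := mul_le_mul_of_nonneg_left h2 (hG i hi)
    linarith
  refine (sum_le_sum h1).trans ?_
  rw [sum_add_distrib, ← sum_mul, ← mul_sum, hG1]
  have h2 : 4 / M * ∑ i ∈ I, G i * Real.exp (e i) ≤ 4 / M * M := mul_le_mul_of_nonneg_left h (by positivity)
  rw [div_mul_cancel₀ _ hM0.ne'] at h2
  linarith

/-- REROUTING (NR), for every environment: the second moment of the excess of the pieces over the cost of the block. -/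
theorem nr_sq (η : Env) (T k : ℕ) {c : ℕ → ℤ → ℕ → ℤ → ℝ} (ds : List ℕ)
    (H : ∀ (u : ℕ) (d : ℕ), d ∈ ds → T ≤ u → u + d ≤ T + ds.sum → ∀ x y : ℤ, 0 ≤ y → y ≤ d →
      W μ s η ((u : ℤ), x) d y * Real.exp (c u x d y) ≤ 1) :
    ∑ S ∈ (range (T + ds.sum + k)).powerset, GS μ s η (T + ds.sum + k) S *
      (max (ex c S T ds - X μ s η ((T : ℤ), pos S T) ds.sum (pos S (T + ds.sum) - pos S T)) 0) ^ 2 ≤
      2 * (ds.length * Real.log (ds.sum + 1)) ^ 2 + 4 := by
  have hn0 : (0 : ℝ) ≤ ds.sum := Nat.cast_nonneg _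
  have h1 := sq_of_exp (range (T + ds.sum + k)).powerset (G := fun S => GS μ s η (T + ds.sum + k) S)
    (e := fun S => ex c S T ds - X μ s η ((T : ℤ), pos S T) ds.sum (pos S (T + ds.sum) - pos S T))
    (M := ((ds.sum : ℝ) + 1) ^ ds.length) (fun S _ => GS_nonneg η _ S) (GS_sum η _)
    (one_le_pow₀ (by linarith)) (by
      refine le_trans (le_of_eq (sum_congr rfl fun S _ => ?_)) (nr_exp η T k ds H)
      have h2 := W_pos (μ := μ) (s := s) η ((T : ℤ), pos S T) (pos_sub_nonneg S T ds.sum) (pos_sub_le S T ds.sum)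
      congr 1
      unfold X
      rw [sub_neg_eq_add, Real.exp_add, Real.exp_log h2])
  rw [Real.log_pow] at h1
  exact h1

end

end Pool.Agent.W_7d29a1_X
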