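import Pool.Agent.W_7d29a1_SR.Lucky
import Pool.Agent.W_7d29a1_G.SecA3
import Pool.Agent.W_7d29a1_L.LsA2

/-!
STORM X (MP_7d29a1_pr), section (SUB): the unit of a long block grows by a power less than the length.
`block_exp`: exponential moments of `log Z_(M n) - M n λ` in the unit of the scale `n`.
`sub_eps`: `EE (M n) ≤ ε M EE n` for a suitable `M = M(ε)`.
-/

namespace Pool.Agent.W_7d29a1_X

open MeasureTheory ProbabilityTheory Filter Topology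
open Pool.Agent.W_7d29a1_F Pool.Agent.W_7d29a1_h4g Pool.Agent.W_7d29a1_G Pool.Agent.W_7d29a1_L
open Pool.Agent.W_7d29a1_SR Pool.Agent.W_7d29a1_G20

variable {μ : Measure ℝ} [IsProbabilityMeasure μ] {c C : ℝ} {n₀ : ℕ}

omit [IsProbabilityMeasure μ] in
/-- A sum over distinct displacements is at most the sum over all displacements. -/
private lemma sum_inj_le' (f : ℤ → ℝ) {n : ℕ} (h0 : ∀ y, 0 ≤ f y) (hz : ∀ y, ¬ (0 ≤ y ∧ y ≤ (n : ℤ)) → f y = 0) (m : ℕ)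
    (a : ℤ) : ∑ l ∈ Finset.range m, f (a + l) ≤ ∑ y ∈ Finset.Icc (0 : ℤ) n, f y := by
  classical
  have h1 : ∑ l ∈ Finset.range m, f (a + l) = ∑ y ∈ (Finset.range m).image (fun l : ℕ => a + (l : ℤ)), f y := by
    rw [Finset.sum_image]
    intro x _ y _ hxy
    simpa using hxy
  rw [h1, ← Finset.sum_filter_add_sum_filter_not _ (fun y => 0 ≤ y ∧ y ≤ (n : ℤ))]
  have h2 : ∑ y ∈ ((Finset.range m).image (fun l : ℕ => a + (l : ℤ))).filter (fun y => ¬ (0 ≤ y ∧ y ≤ (n : ℤ))), f y = 0 :=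
    Finset.sum_eq_zero fun y hy => hz y (Finset.mem_filter.1 hy).2
  rw [h2, add_zero]
  refine Finset.sum_le_sum_of_subset_of_nonneg (fun y hy => ?_) fun y _ _ => h0 y
  rw [Finset.mem_Icc]
  exact (Finset.mem_filter.1 hy).2

/-- The kernel between two cells, by the tilted lucks of the box. -/
theorem Bk_le_Mh {w n : ℕ} {h1 κ r : ℝ} (hw : 0 < w) (hr : (w : ℝ) ≤ r) (h10 : 0 ≤ h1) (h11 : h1 ≤ 1)
    (hκ0 : 0 ≤ κ) (hκ : κ ≤ h1 * w) (k : ℤ) (η : Env) :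
    Bk μ 0 w n ((n : ℤ) / 2) k η ≤ (Real.exp (Mh μ 0 (1 / 2) (-h1) r (-(1 / 2)) (4 * n) η) +
      Real.exp (Mh μ 0 (1 / 2) h1 r (-(1 / 2)) (4 * n) η)) * Real.exp (-far κ k) := by
  haveI : Nonempty (Fin w) := ⟨⟨0, hw⟩⟩
  have hw1 : (1 : ℝ) ≤ w := by exact_mod_cast hw
  have N : Nm (1 / 2) w (-h1) 0 h1 κ := by
    refine ⟨by norm_num, by norm_num, hw1, ?_, ?_, by linarith, h10, hκ0, ?_, ?_⟩
    · rw [abs_neg, abs_of_nonneg h10]
      exact h11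
    · rw [abs_of_nonneg h10]
      exact h11
    · linarith
    · linarith
  refine ciSup_le fun i => ?_
  obtain ⟨i, hi⟩ := i
  show ∑ l ∈ Finset.range w, W μ 0 η (0, (i : ℤ)) n ((n : ℤ) / 2 + k * w + l - (i : ℕ)) ≤ _
  have hbx : (((0, (i : ℤ)), n) : (ℕ × ℤ) × ℕ) ∈ Bx (1 / 2) r (-(1 / 2)) (4 * n) := by
    rw [mem_Bx (by norm_num) (by norm_num)]
    refine ⟨?_, ?_, ?_⟩
    · show 0 + n ≤ 4 * n
      omega
    · show -(1 / 2 : ℝ) < ((i : ℤ) : ℝ) - 1 / 2 * ((0 : ℕ) : ℝ)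
      push_cast
      have : (0 : ℝ) ≤ i := Nat.cast_nonneg i
      linarith
    · show ((i : ℤ) : ℝ) - 1 / 2 * ((0 : ℕ) : ℝ) ≤ -(1 / 2) + r
      push_cast
      have : (i : ℝ) + 1 ≤ w := by exact_mod_cast hi
      linarith
  have hT : ∀ h' : ℝ, ∑ l ∈ Finset.range w, W μ 0 η (0, (i : ℤ)) n ((n : ℤ) / 2 + k * w + l - (i : ℕ)) *
      Real.exp (h' * ((((n : ℤ) / 2 + k * w + l - (i : ℕ) : ℤ) : ℝ) - 1 / 2 * n)) ≤
      Real.exp (Mh μ 0 (1 / 2) h' r (-(1 / 2)) (4 * n) η) := by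
    intro h'
    have h1 := le_Mh (μ := μ) (s := 0) (h := h') η hbx
    refine le_trans ?_ (Real.exp_le_exp.2 h1)
    have h2 : Real.exp (T μ 0 (1 / 2) h' η (((0 : ℕ) : ℤ), (i : ℤ)) n) =
      ∑ y ∈ Finset.Icc (0 : ℤ) n, W μ 0 η (((0 : ℕ) : ℤ), (i : ℤ)) n y * Real.exp (h' * ((y : ℝ) - 1 / 2 * n)) :=
      exp_T η _ n
    show _ ≤ Real.exp (T μ 0 (1 / 2) h' η (((0 : ℕ) : ℤ), (i : ℤ)) n)
    rw [h2]
    have h3 := sum_inj_le' (fun y : ℤ => W μ 0 η (((0 : ℕ) : ℤ), (i : ℤ)) n y * Real.exp (h' * ((y : ℝ) - 1 / 2 * n)))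
      (n := n) (fun y => mul_nonneg (W_nonneg _ _ _ _) (Real.exp_pos _).le)
      (fun y hy => by rw [W_eq_zero η _ hy, zero_mul]) w ((n : ℤ) / 2 + k * w - (i : ℕ))
    refine le_trans (le_of_eq ?_) h3
    refine Finset.sum_congr rfl fun l _ => ?_
    have e : (n : ℤ) / 2 + k * w + l - (i : ℕ) = (n : ℤ) / 2 + k * w - (i : ℕ) + (l : ℤ) := by ring
    rw [e]
    rfl
  have h3 : ∀ l ∈ Finset.range w, W μ 0 η (0, (i : ℤ)) n ((n : ℤ) / 2 + k * w + l - (i : ℕ)) ≤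
      (W μ 0 η (0, (i : ℤ)) n ((n : ℤ) / 2 + k * w + l - (i : ℕ)) *
        Real.exp (-h1 * ((((n : ℤ) / 2 + k * w + l - (i : ℕ) : ℤ) : ℝ) - 1 / 2 * n)) +
      W μ 0 η (0, (i : ℤ)) n ((n : ℤ) / 2 + k * w + l - (i : ℕ)) *
        Real.exp (h1 * ((((n : ℤ) / 2 + k * w + l - (i : ℕ) : ℤ) : ℝ) - 1 / 2 * n))) * Real.exp (-far κ k) := by
    intro l hl
    rw [Finset.mem_range] at hl
    have hl' : (l : ℝ) + 1 ≤ w := by exact_mod_cast hl
    have hi' : (i : ℝ) + 1 ≤ w := by exact_mod_cast hi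
    have hl0 : (0 : ℝ) ≤ l := Nat.cast_nonneg l
    have hi0 : (0 : ℝ) ≤ i := Nat.cast_nonneg i
    have hd : (2 : ℝ) * (((n : ℤ) / 2 : ℤ) : ℝ) ≤ n ∧ (n : ℝ) ≤ 2 * (((n : ℤ) / 2 : ℤ) : ℝ) + 1 := by
      constructor
      · have : 2 * ((n : ℤ) / 2) ≤ n := by omega
        exact_mod_cast this
      · have : (n : ℤ) ≤ 2 * ((n : ℤ) / 2) + 1 := by omega
        exact_mod_cast this
    obtain ⟨u, hu⟩ : ∃ u : ℝ, u = (((n : ℤ) / 2 + k * w + l - (i : ℕ) : ℤ) : ℝ) - 1 / 2 * n := ⟨_, rfl⟩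
    have hu' : u = (((n : ℤ) / 2 : ℤ) : ℝ) + k * w + l - i - 1 / 2 * n := by
      rw [hu]
      push_cast
      ring
    have h4 := tilt_le N (u := u) (j := k) (by rw [hu']; linarith [hd.1, hd.2]) (by rw [hu']; linarith [hd.1, hd.2])
    rw [zero_mul, Real.exp_zero] at h4
    rw [← hu, ← mul_add, mul_assoc]
    exact le_mul_of_one_le_right (W_nonneg _ _ _ _) h4
  refine (Finset.sum_le_sum h3).trans ?_
  rw [← Finset.sum_mul, Finset.sum_add_distrib]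
  exact mul_le_mul_of_nonneg_right (add_le_add (hT _) (hT _)) (Real.exp_pos _).le

/-- The moment of one block, for the cells of the width of the cone. -/
theorem Mom_of (h : In μ c C n₀) : ∃ ρ A : ℝ, 0 ≤ ρ ∧ ρ < 1 ∧ 1 ≤ A ∧ ∃ n₁ : ℕ, ∀ n, n₁ ≤ n →
    0 < ⌊wd μ n⌋₊ ∧ Mom μ 0 (1 / (C * EE μ n)) ⌊wd μ n⌋₊ n ((n : ℤ) / 2) A ρ := by
  obtain ⟨c', hc', n1, hn1⟩ := wd_ge h
  obtain ⟨n2, hn2⟩ := Filter.eventually_atTop.1 ((wd_tendsto h).eventually_ge_atTop 2)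
  have hc := h.c0
  have hC1 := h.C1
  have hC0 : 0 < C := lt_of_lt_of_le one_pos hC1
  obtain ⟨b, hb⟩ : ∃ b, b = min c c' := ⟨_, rfl⟩
  have hb0 : 0 < b := by rw [hb]; exact lt_min hc hc'
  have hbc : b ≤ c := by rw [hb]; exact min_le_left _ _
  have hbc' : b ≤ c' := by rw [hb]; exact min_le_right _ _
  have hbC : 0 < b / (6 * C) := by positivity
  refine ⟨Real.exp (-(b / (6 * C))), 2 * C * Real.exp (b / (2 * C)), (Real.exp_pos _).le,
    Real.exp_lt_one_iff.2 (by linarith), ?_, max n₀ (max n1 n2), fun n hn => ?_⟩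
  · have h1 : 1 ≤ Real.exp (b / (2 * C)) := Real.one_le_exp (by positivity)
    nlinarith
  have hw2 := hn2 n ((le_max_right _ _).trans ((le_max_right _ _).trans hn))
  have hwE := hn1 n ((le_max_left _ _).trans ((le_max_right _ _).trans hn))
  have hE := EE_pos (μ := μ) n
  have hE1 := one_le_EE (μ := μ) n
  have hwd : 0 < wd μ n := by linarith
  have hfl1 : (⌊wd μ n⌋₊ : ℝ) ≤ wd μ n := Nat.floor_le hwd.le
  have hfl2 : wd μ n < ⌊wd μ n⌋₊ + 1 := Nat.lt_floor_add_one _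
  have hw0 : 0 < ⌊wd μ n⌋₊ := Nat.floor_pos.2 (by linarith)
  refine ⟨hw0, fun k => ?_⟩
  obtain ⟨h1, hh1⟩ : ∃ h1 : ℝ, h1 = b * EE μ n / wd μ n := ⟨_, rfl⟩
  have h10 : 0 ≤ h1 := by rw [hh1]; positivity
  have h11 : h1 ≤ 1 := by
    rw [hh1, div_le_one hwd]
    exact (mul_le_mul_of_nonneg_right hbc' hE.le).trans hwE
  have h1w : h1 * wd μ n = b * EE μ n := by rw [hh1]; field_simp
  have hκ : b * EE μ n / 2 ≤ h1 * (⌊wd μ n⌋₊ : ℝ) := by
    have e1 : wd μ n / 2 ≤ (⌊wd μ n⌋₊ : ℝ) := by linarith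
    have e2 := mul_le_mul_of_nonneg_left e1 h10
    have e3 : h1 * (wd μ n / 2) = b * EE μ n / 2 := by rw [← h1w]; ring
    linarith
  have hlk : ∀ h' : ℝ, |h'| ≤ h1 →
      ∫ η, Real.exp (Mh μ 0 (1 / 2) h' (wd μ n) (-(1 / 2)) (4 * n) η / (C * EE μ n)) ∂(law μ) ≤ C := by
    intro h' hh'
    refine h.luck n ((le_max_left _ _).trans hn) h' _ ?_
    have e1 := mul_le_mul_of_nonneg_right hh' hwd.le
    have e2 := mul_le_mul_of_nonneg_right hbc hE.le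
    linarith
  obtain ⟨θ, hθ⟩ : ∃ θ : ℝ, θ = 1 / (C * EE μ n) := ⟨_, rfl⟩
  have hCE : 1 ≤ C * EE μ n := by nlinarith
  have hCE0 : 0 < C * EE μ n := by linarith
  have hθ0 : 0 < θ := by rw [hθ]; positivity
  have hθ1 : θ ≤ 1 := by rw [hθ, div_le_one hCE0]; exact hCE
  rw [← hθ]
  obtain ⟨M1, hM1⟩ : ∃ M1 : Env → ℝ, M1 = fun η => Mh μ 0 (1 / 2) (-h1) (wd μ n) (-(1 / 2)) (4 * n) η := ⟨_, rfl⟩
  obtain ⟨M2, hM2⟩ : ∃ M2 : Env → ℝ, M2 = fun η => Mh μ 0 (1 / 2) h1 (wd μ n) (-(1 / 2)) (4 * n) η := ⟨_, rfl⟩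
  have hM1S : Sub M1 := by rw [hM1]; exact Sub_Mh
  have hM2S : Sub M2 := by rw [hM2]; exact Sub_Mh
  have hpt : ∀ η, Bk μ 0 ⌊wd μ n⌋₊ n ((n : ℤ) / 2) k η ^ θ ≤
      (Real.exp (θ * M1 η) + Real.exp (θ * M2 η)) * Real.exp (-(θ * far (b * EE μ n / 2) k)) := by
    intro η
    have e1 := Bk_le_Mh (μ := μ) (n := n) hw0 hfl1 h10 h11 (κ := b * EE μ n / 2) (by positivity) hκ k η
    have e2 := Real.rpow_le_rpow ((Bk_dom (μ := μ) hw0 _ _ _).nonneg η) e1 hθ0.le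
    refine e2.trans ?_
    rw [Real.mul_rpow (by positivity) (Real.exp_pos _).le, ← Real.exp_mul]
    have e3 := Real.rpow_add_le_add_rpow (Real.exp_pos (Mh μ 0 (1 / 2) (-h1) (wd μ n) (-(1 / 2)) (4 * n) η)).le
      (Real.exp_pos (Mh μ 0 (1 / 2) h1 (wd μ n) (-(1 / 2)) (4 * n) η)).le hθ0.le hθ1
    rw [← Real.exp_mul, ← Real.exp_mul] at e3
    have e4 : Real.exp (-far (b * EE μ n / 2) k * θ) = Real.exp (-(θ * far (b * EE μ n / 2) k)) := by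
      congr 1
      ring
    rw [e4]
    refine mul_le_mul_of_nonneg_right (e3.trans (le_of_eq ?_)) (Real.exp_pos _).le
    rw [hM1, hM2, mul_comm θ, mul_comm θ]
  have hI1 := (hM1S.const_mul θ).exp_int h.em
  have hI2 := (hM2S.const_mul θ).exp_int h.em
  have h5 := integral_mono ((Bk_dom (μ := μ) (s := 0) hw0 n ((n : ℤ) / 2) k).rpow_int h.em hθ0.le)
    ((hI1.add hI2).mul_const (Real.exp (-(θ * far (b * EE μ n / 2) k)))) hpt
  refine h5.trans ?_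
  have h6 : ∫ η, (Real.exp (θ * M1 η) + Real.exp (θ * M2 η)) * Real.exp (-(θ * far (b * EE μ n / 2) k)) ∂(law μ) =
      ((∫ η, Real.exp (θ * M1 η) ∂(law μ)) + ∫ η, Real.exp (θ * M2 η) ∂(law μ)) *
      Real.exp (-(θ * far (b * EE μ n / 2) k)) := by
    rw [integral_mul_const, integral_add hI1 hI2]
  have h7 : ∀ x : ℝ, θ * x = x / (C * EE μ n) := fun x => by rw [hθ]; ring
  have h8 : ∫ η, Real.exp (θ * M1 η) ∂(law μ) ≤ C := by
    have := hlk (-h1) (by rw [abs_neg, abs_of_nonneg h10])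
    rw [hM1]
    simp only [h7]
    exact this
  have h9 : ∫ η, Real.exp (θ * M2 η) ∂(law μ) ≤ C := by
    have := hlk h1 (by rw [abs_of_nonneg h10])
    rw [hM2]
    simp only [h7]
    exact this
  have h10' : Real.exp (-(θ * far (b * EE μ n / 2) k)) ≤
      Real.exp (b / (2 * C)) * Real.exp (-(b / (6 * C))) ^ (3 * k.natAbs) := by
    rw [← Real.exp_nat_mul, ← Real.exp_add]
    refine Real.exp_le_exp.2 ?_
    have e1 : θ * far (b * EE μ n / 2) k = b / (2 * C) * max (|(k : ℝ)| - 1) 0 := by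
      unfold Pool.Agent.W_7d29a1_L.far
      rw [hθ]
      field_simp
    have e2 : ((3 * k.natAbs : ℕ) : ℝ) = 3 * |(k : ℝ)| := by
      push_cast
      rw [Nat.cast_natAbs, Int.cast_abs]
    have e3 : |(k : ℝ)| - 1 ≤ max (|(k : ℝ)| - 1) 0 := le_max_left _ _
    have e4 := mul_le_mul_of_nonneg_left e3 (show 0 ≤ b / (2 * C) by positivity)
    rw [e1, e2]
    have e5 : 3 * |(k : ℝ)| * -(b / (6 * C)) = -(b / (2 * C) * |(k : ℝ)|) := by
      field_simp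
      ring
    rw [e5]
    linarith
  calc ∫ η, (Real.exp (θ * M1 η) + Real.exp (θ * M2 η)) * Real.exp (-(θ * far (b * EE μ n / 2) k)) ∂(law μ)
      = _ := h6
    _ ≤ (C + C) * (Real.exp (b / (2 * C)) * Real.exp (-(b / (6 * C))) ^ (3 * k.natAbs)) :=
        mul_le_mul (add_le_add h8 h9) h10' (Real.exp_pos _).le (by linarith)
    _ = _ := by ring

/-- EXPONENTIAL MOMENTS OF A LONG BLOCK in the unit of the scale `n`. -/
theorem block_exp (h : In μ c C n₀) : ∃ A : ℝ, 1 ≤ A ∧ ∃ n₁ : ℕ, ∀ n, n₁ ≤ n → ∀ M : ℕ,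
    ∫ η, Real.exp (V μ 0 η 0 (M * n) / (C * EE μ n)) ∂(law μ) ≤ A ^ M := by
  obtain ⟨ρ, A, hρ0, hρ1, hA, n1, hn1⟩ := Mom_of h
  have hg := one_le_two_div hρ0 hρ1
  have hC1 := h.C1
  refine ⟨A * (2 / (1 - ρ)), by nlinarith, n1, fun n hn M => ?_⟩
  obtain ⟨hw0, hM⟩ := hn1 n hn
  have hE1 := one_le_EE (μ := μ) n
  have hCE : 1 ≤ C * EE μ n := by nlinarith
  have hCE0 : 0 < C * EE μ n := by linarith
  obtain ⟨θ, hθ⟩ : ∃ θ : ℝ, θ = 1 / (C * EE μ n) := ⟨_, rfl⟩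
  have hθ0 : 0 < θ := by rw [hθ]; positivity
  have hθ1 : θ ≤ 1 := by rw [hθ, div_le_one hCE0]; exact hCE
  rw [← hθ] at hM
  have h1 := Gk_iter h.em hθ0 hθ1 hw0 (d := (n : ℤ) / 2) (by omega) (by omega) hA hρ0 hρ1 hM M
  refine le_trans ?_ h1
  have h2 : ∀ η, Real.exp (V μ 0 η 0 (M * n) / (C * EE μ n)) ≤ Gk μ 0 ⌊wd μ n⌋₊ (M * n) η ^ θ := by
    intro η
    have e1 := le_Gk (μ := μ) (s := 0) (M * n) η 0 hw0
    have e2 : Real.exp (V μ 0 η 0 (M * n) / (C * EE μ n)) = Real.exp (V μ 0 η 0 (M * n)) ^ θ := by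
      rw [← Real.exp_mul, hθ]
      congr 1
      ring
    rw [e2]
    exact Real.rpow_le_rpow (Real.exp_pos _).le e1 hθ0.le
  refine integral_mono ?_ ((Gk_dom (μ := μ) (s := 0) hw0 (M * n)).rpow_int h.em hθ0.le) h2
  have e3 := ((Sub_V (μ := μ) (s := 0) 0 (M * n)).const_mul θ).exp_int h.em
  refine (congrArg (fun f => Integrable f (law μ)) (funext fun η => ?_)).mp e3
  show Real.exp (θ * V μ 0 η 0 (M * n)) = _
  rw [hθ]
  congr 1
  ring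

/-- The upper tail of a long block. -/
theorem block_tail (h : In μ c C n₀) : ∃ A : ℝ, 1 ≤ A ∧ ∃ n₁ : ℕ, ∀ n, n₁ ≤ n → ∀ (M : ℕ) (Y : ℝ),
    (law μ).real {η | Y ≤ V μ 0 η 0 (M * n)} ≤ A ^ M * Real.exp (-(Y / (C * EE μ n))) := by
  obtain ⟨A, hA, n1, hn1⟩ := block_exp h
  refine ⟨A, hA, n1, fun n hn M Y => ?_⟩
  have hE := EE_pos (μ := μ) n
  have hC0 : 0 < C := lt_of_lt_of_le one_pos h.C1
  have hCE : 0 < C * EE μ n := by positivity
  have hI : Integrable (fun η => Real.exp (V μ 0 η 0 (M * n) / (C * EE μ n))) (law μ) := by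
    have e3 := ((Sub_V (μ := μ) (s := 0) 0 (M * n)).const_mul (1 / (C * EE μ n))).exp_int h.em
    refine (congrArg (fun f => Integrable f (law μ)) (funext fun η => ?_)).mp e3
    show Real.exp (1 / (C * EE μ n) * V μ 0 η 0 (M * n)) = _
    congr 1
    ring
  have h1 := mul_meas_ge_le_integral_of_nonneg (μ := law μ)
    (f := fun η => Real.exp (V μ 0 η 0 (M * n) / (C * EE μ n)))
    (Filter.Eventually.of_forall fun η => (Real.exp_pos _).le) hI (Real.exp (Y / (C * EE μ n)))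
  have h2 : {η | Y ≤ V μ 0 η 0 (M * n)} ⊆
      {η | Real.exp (Y / (C * EE μ n)) ≤ Real.exp (V μ 0 η 0 (M * n) / (C * EE μ n))} := by
    intro η hη
    exact Real.exp_le_exp.2 (div_le_div_of_nonneg_right hη hCE.le)
  have h3 := (mul_le_mul_of_nonneg_left (measureReal_mono (μ := law μ) h2 (measure_ne_top _ _))
    (Real.exp_pos (Y / (C * EE μ n))).le).trans (h1.trans (hn1 n hn M))
  rw [Real.exp_neg, ← div_eq_mul_inv, le_div_iff₀ (Real.exp_pos _), mul_comm]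
  exact h3

/-- (SUB): the unit of a block of length `M n` is at most `ε M` units of the scale `n`. -/
theorem sub_eps (h : In μ c C n₀) {ε : ℝ} (hε : 0 < ε) : ∃ j₀ : ℕ, ∀ j : ℕ, j₀ ≤ j → ∃ n₁ : ℕ, ∀ n, n₁ ≤ n →
    EE μ (2 ^ j * n) ≤ ε * 2 ^ j * EE μ n := by
  obtain ⟨A, hA, n1, hn1⟩ := block_tail h
  have hC0 : 0 < C := lt_of_lt_of_le one_pos h.C1
  have hL : 0 ≤ Real.log A := Real.log_nonneg hA
  obtain ⟨K, hK⟩ : ∃ K : ℝ, K = C * (Real.log A + 1) / ε := ⟨_, rfl⟩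
  have hK0 : 0 < K := by rw [hK]; positivity
  obtain ⟨p, hp, n2, hn2⟩ := lucky h K
  obtain ⟨j₀, hj₀⟩ : ∃ j₀ : ℕ, Real.exp (-(j₀ : ℝ)) < p := by
    obtain ⟨j, hj⟩ := exists_nat_gt (-Real.log p)
    refine ⟨j, ?_⟩
    rw [← Real.lt_log_iff_exp_lt hp]
    linarith
  refine ⟨j₀, fun j hj => ⟨max n1 n2, fun n hn => ?_⟩⟩
  by_contra hcon
  push Not at hcon
  have hE := EE_pos (μ := μ) n
  have hjn : n2 ≤ 2 ^ j * n := by
    have h1 : n2 ≤ n := (le_max_right _ _).trans hn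
    have h2 : 1 ≤ 2 ^ j := Nat.one_le_two_pow
    nlinarith
  have h1 := hn2 _ hjn
  have h2 := hn1 n ((le_max_left _ _).trans hn) (2 ^ j) (K * EE μ (2 ^ j * n))
  have h3 : (((2 : ℕ) ^ j : ℕ) : ℝ) = (2 : ℝ) ^ j := by push_cast; rfl
  have h4 : (Real.log A + 1) * 2 ^ j ≤ K * EE μ (2 ^ j * n) / (C * EE μ n) := by
    rw [le_div_iff₀ (by positivity)]
    have e1 : K * (ε * 2 ^ j * EE μ n) = (Real.log A + 1) * 2 ^ j * (C * EE μ n) := by
      rw [hK]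
      field_simp
    have e2 := mul_le_mul_of_nonneg_left hcon.le hK0.le
    linarith
  have h5 : A ^ (2 ^ j) * Real.exp (-(K * EE μ (2 ^ j * n) / (C * EE μ n))) ≤ Real.exp (-(j : ℝ)) := by
    have e1 : A ^ (2 ^ j) = Real.exp (Real.log A * 2 ^ j) := by
      have : Real.log A * 2 ^ j = ((2 ^ j : ℕ) : ℝ) * Real.log A := by push_cast; ring
      rw [this, Real.exp_nat_mul, Real.exp_log (by linarith)]
    rw [e1, ← Real.exp_add]
    refine Real.exp_le_exp.2 ?_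
    have e2 : (j : ℝ) ≤ 2 ^ j := by
      have : j ≤ 2 ^ j := Nat.lt_two_pow_self.le
      exact_mod_cast this
    linarith
  have h6 : Real.exp (-(j : ℝ)) ≤ Real.exp (-(j₀ : ℝ)) := by
    refine Real.exp_le_exp.2 ?_
    have : (j₀ : ℝ) ≤ j := by exact_mod_cast hj
    linarith
  linarith

/-- (SUB) for the logarithms of the units. -/
theorem sub_gg (h : In μ c C n₀) (q : ℕ) : ∃ L : ℕ, 1 ≤ L ∧ ∃ x₀ : ℕ, ∀ x, x₀ ≤ x →
    gg μ (x + L) ≤ gg μ x + L - q := by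
  obtain ⟨j₀, hj₀⟩ := sub_eps h (ε := (2 : ℝ) ^ (-(q : ℝ))) (Real.rpow_pos_of_pos two_pos _)
  obtain ⟨n1, hn1⟩ := hj₀ (j₀ + 1) (Nat.le_succ _)
  refine ⟨j₀ + 1, by omega, n1, fun x hx => ?_⟩
  have h1 := hn1 (2 ^ x) (hx.trans Nat.lt_two_pow_self.le)
  have hE := EE_pos (μ := μ) (2 ^ x)
  have h2 : (2 : ℕ) ^ (j₀ + 1) * 2 ^ x = 2 ^ (x + (j₀ + 1)) := by rw [← pow_add]; congr 1; omega
  rw [h2] at h1
  unfold gg
  have h3 := Real.logb_le_logb_of_le one_lt_two (EE_pos (μ := μ) (2 ^ (x + (j₀ + 1)))) h1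
  refine h3.trans (le_of_eq ?_)
  rw [Real.logb_mul (by positivity) hE.ne', Real.logb_mul (by positivity) (by positivity), Real.logb_rpow two_pos (by norm_num),
    ← Real.rpow_natCast, Real.logb_rpow two_pos (by norm_num)]
  ring

/-- (SUB), power form. -/
theorem sub_pow (h : In μ c C n₀) : ∃ B θ : ℝ, 1 ≤ B ∧ 0 < θ ∧ θ < 1 ∧ ∃ n₁ : ℕ, ∀ m n : ℕ, n₁ ≤ m → m ≤ n →
    EE μ n ≤ B * ((n : ℝ) / m) ^ (1 - θ) * EE μ m := by
  obtain ⟨j₀, hj₀⟩ := sub_eps h (ε := (2 : ℝ) ^ (-(2 : ℝ))) (Real.rpow_pos_of_pos two_pos _)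
  obtain ⟨j, hj⟩ : ∃ j : ℕ, j = j₀ + 3 := ⟨_, rfl⟩
  obtain ⟨n1, hn1⟩ := hj₀ j (by omega)
  have hjr : (3 : ℝ) ≤ j := by
    rw [hj]
    push_cast
    have : (0 : ℝ) ≤ j₀ := Nat.cast_nonneg j₀
    linarith
  have hj0 : (0 : ℝ) < j := by linarith
  obtain ⟨a, ha⟩ : ∃ a : ℝ, a = (2 : ℝ) ^ ((j : ℝ) - 2) := ⟨_, rfl⟩
  have ha1 : 1 ≤ a := by
    rw [ha]
    exact Real.one_le_rpow (by norm_num) (by linarith)
  have ha2 : (2 : ℝ) ^ (-(2 : ℝ)) * 2 ^ j = a := by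
    rw [ha, ← Real.rpow_natCast, ← Real.rpow_add two_pos]
    congr 1
    ring
  have hq : ((2 : ℝ) ^ j) ^ (1 - 2 / (j : ℝ)) = a := by
    rw [ha, ← Real.rpow_natCast, ← Real.rpow_mul (by norm_num)]
    congr 1
    field_simp
  have key : ∀ k m : ℕ, n1 ≤ m → EE μ ((2 ^ j) ^ k * m) ≤ a ^ k * EE μ m := by
    intro k
    induction k with
    | zero => intro m _; simp
    | succ k ih =>
      intro m hm
      have e1 : (2 ^ j) ^ (k + 1) * m = 2 ^ j * ((2 ^ j) ^ k * m) := by ring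
      have e2 : n1 ≤ (2 ^ j) ^ k * m := by
        have : 1 ≤ (2 ^ j) ^ k := Nat.one_le_pow _ _ (by positivity)
        nlinarith
      rw [e1]
      refine (hn1 _ e2).trans ?_
      rw [ha2, pow_succ, mul_comm (a ^ k) a, mul_assoc]
      exact mul_le_mul_of_nonneg_left (ih m hm) (by linarith)
  refine ⟨a, 2 / j, ha1, by positivity, ?_, max n1 1, fun m n hm hmn => ?_⟩
  · rw [div_lt_one hj0]
    linarith
  have hm1 : 1 ≤ m := (le_max_right _ _).trans hm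
  have hm0 : (0 : ℝ) < m := by exact_mod_cast hm1
  have hb : 1 < 2 ^ j := Nat.one_lt_two_pow (by omega)
  have hnm : n / m ≠ 0 := by
    have := Nat.div_pos hmn hm1
    omega
  obtain ⟨k, hk⟩ : ∃ k, k = Nat.log (2 ^ j) (n / m) := ⟨_, rfl⟩
  have h1 : (2 ^ j) ^ k ≤ n / m := by rw [hk]; exact Nat.pow_log_le_self _ hnm
  have h2 : n / m < (2 ^ j) ^ (k + 1) := by rw [hk]; exact Nat.lt_pow_succ_log_self hb _
  have h3 : (2 ^ j) ^ k * m ≤ n := (Nat.le_div_iff_mul_le hm1).1 h1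
  have h4 : n < (2 ^ j) ^ (k + 1) * m := (Nat.div_lt_iff_lt_mul hm1).1 h2
  have h5 := (EE_mono (μ := μ) h4.le).trans (key (k + 1) m ((le_max_left _ _).trans hm))
  have h6 : a ^ k ≤ ((n : ℝ) / m) ^ (1 - 2 / (j : ℝ)) := by
    rw [← hq, ← Real.rpow_natCast, ← Real.rpow_mul (by positivity), mul_comm, Real.rpow_mul (by positivity),
      Real.rpow_natCast]
    refine Real.rpow_le_rpow (by positivity) ?_ ?_
    · rw [le_div_iff₀ hm0]
      exact_mod_cast h3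
    · have : 2 / (j : ℝ) ≤ 1 := by rw [div_le_one hj0]; linarith
      linarith
  refine h5.trans ?_
  rw [pow_succ, mul_comm (a ^ k) a]
  exact mul_le_mul_of_nonneg_right (mul_le_mul_of_nonneg_left h6 (by linarith)) (EE_pos _).le

end Pool.Agent.W_7d29a1_X
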