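import Mathlib

/-!
STORM X, (ES'): the pure lemma on the steep steps. A tree of blocks (`A` children, depth `L`) with costs; the cost of a partition of a
block is at most `C1` times the cost of the block plus `a` (rerouting), the costs are nearly superadditive (convexity). Then the sum of
the squares of the costs of the leaves is at most a quarter of the square of the cost of the root plus `C3 a ^ 2`. (helper89)

Blocks: `(l, i)` = level `l`, index `i`; the children of `(l + 1, i)` are `(l, A * i + j)`, `j < A`; the leaves are `(0, x)`; the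
ancestor of the leaf `x` at the level `l` is `x / A ^ l`.
-/

namespace Pool.Agent.W_7d29a1_X

open Finset

noncomputable section

/-- The costs of the siblings of the ancestor of `x` at the level `l`. -/
def sib (A : ℕ) (c : ℕ → ℕ → ℝ) (x l : ℕ) : ℝ :=
  ∑ j ∈ (range A).erase (x / A ^ l % A), c l (A * (x / A ^ (l + 1)) + j)

/-- The cost of the leaf `x` and of all the siblings of its ancestors, up to the level `l`. -/
def chn (A : ℕ) (c : ℕ → ℕ → ℝ) (x l : ℕ) : ℝ := c 0 x + ∑ j ∈ range l, sib A c x j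

variable {A : ℕ} {c : ℕ → ℕ → ℝ}

theorem anc (x l : ℕ) : A * (x / A ^ (l + 1)) + x / A ^ l % A = x / A ^ l := by
  rw [pow_succ, ← Nat.div_div_eq_div_mul]
  exact Nat.div_add_mod _ _

theorem chn_zero (x : ℕ) : chn A c x 0 = c 0 x := by simp [chn]

theorem chn_succ (x l : ℕ) : chn A c x (l + 1) = chn A c x l + sib A c x l := by
  unfold chn
  rw [sum_range_succ]
  ring

/-- The children of the ancestor at the level `l + 1`. -/
theorem sum_children (hA : 0 < A) (x l : ℕ) :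
    ∑ j ∈ range A, c l (A * (x / A ^ (l + 1)) + j) = c l (x / A ^ l) + sib A c x l := by
  unfold sib
  rw [← add_sum_erase (range A) _ (mem_range.2 (Nat.mod_lt (x / A ^ l) hA)), anc]

/-- Convexity along the chain. -/
theorem le_chn (hA : 0 < A) {x L : ℕ}
    (hJ1 : ∀ l < L, c (l + 1) (x / A ^ (l + 1)) ≤ ∑ j ∈ range A, c l (A * (x / A ^ (l + 1)) + j)) :
    ∀ l ≤ L, c l (x / A ^ l) ≤ chn A c x l := by
  intro l
  induction l with
  | zero =>
    intro _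
    simp [chn]
  | succ l ih =>
    intro hl
    have h1 := hJ1 l (by omega)
    rw [sum_children hA] at h1
    rw [chn_succ]
    linarith [ih (by omega)]

/-- The largest leaf. -/
theorem leaf_le (hA : 0 < A) {x L : ℕ} {ε C1 C2 a : ℝ} (hC1 : 1 ≤ C1) (hC2 : 2 ≤ C2) (hε : ε * C1 ≤ 1 / 2)
    (hc : ∀ l ≤ L, 0 ≤ c l (x / A ^ l)) (ha : 0 ≤ a)
    (hJ1 : ∀ l < L, c (l + 1) (x / A ^ (l + 1)) ≤ ∑ j ∈ range A, c l (A * (x / A ^ (l + 1)) + j))
    (hJ2 : ∀ l < L, c (l + 1) (x / A ^ (l + 1)) ≤ ε * c l (x / A ^ l) + C2 * sib A c x l)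
    (hNR : ∀ l ≤ L, chn A c x l ≤ C1 * c l (x / A ^ l) + a) :
    c 0 x ≤ ((C1 * C2 - 1) / (C1 * C2 - 1 / 2)) ^ L * (C1 * c L (x / A ^ L)) + 2 * (C1 * C2) * a := by
  obtain ⟨K, hK⟩ : ∃ K : ℝ, K = C1 * C2 := ⟨_, rfl⟩
  have hK2 : 2 ≤ K := by
    rw [hK]
    nlinarith
  rw [← hK]
  obtain ⟨θ, hθ⟩ : ∃ θ : ℝ, θ = (K - 1) / (K - 1 / 2) := ⟨_, rfl⟩
  rw [← hθ]
  have hD : 0 < K - 1 / 2 := by linarith
  have hθ0 : 0 ≤ θ := by
    rw [hθ]
    exact div_nonneg (by linarith) hD.le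
  have hθ1 : θ ≤ 1 := by
    rw [hθ, div_le_one hD]
    linarith
  have hle := le_chn hA hJ1
  -- one step
  have step : ∀ l < L, chn A c x l ≤ θ * chn A c x (l + 1) + a / (K - 1 / 2) := by
    intro l hl
    have h1 := hNR (l + 1) (by omega)
    have h2 := hJ2 l hl
    have h3 := chn_succ (A := A) (c := c) x l
    have h4 : C1 * c (l + 1) (x / A ^ (l + 1)) ≤ C1 * (ε * c l (x / A ^ l) + C2 * sib A c x l) :=
      mul_le_mul_of_nonneg_left h2 (by linarith)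
    have h5 : C1 * (ε * c l (x / A ^ l)) ≤ 1 / 2 * c l (x / A ^ l) := by
      have := mul_le_mul_of_nonneg_right hε (hc l (by omega))
      linarith
    have h6 := hle l (by omega)
    have h7 : chn A c x (l + 1) ≤ 1 / 2 * chn A c x l + K * (chn A c x (l + 1) - chn A c x l) + a := by
      rw [hK]
      have h8 : C1 * (C2 * sib A c x l) = C1 * C2 * (chn A c x (l + 1) - chn A c x l) := by
        rw [h3]
        ring
      linarith
    have h9 : (K - 1 / 2) * chn A c x l ≤ (K - 1) * chn A c x (l + 1) + a := by linarith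
    rw [hθ, div_mul_eq_mul_div, ← add_div, le_div_iff₀ hD]
    linarith
  -- iteration
  have h3 : (1 - θ) * (2 * a) = a / (K - 1 / 2) := by
    have e1 : 1 - θ = 1 / 2 / (K - 1 / 2) := by
      rw [hθ, eq_div_iff hD.ne', sub_mul, div_mul_cancel₀ _ hD.ne']
      ring
    rw [e1]
    ring
  have iter : ∀ l ≤ L, c 0 x ≤ θ ^ l * chn A c x l + (1 - θ ^ l) * (2 * a) := by
    intro l
    induction l with
    | zero =>
      intro _
      rw [chn_zero]
      simp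
    | succ l ih =>
      intro hl
      have h1 := ih (by omega)
      have h2 := mul_le_mul_of_nonneg_left (step l (by omega)) (pow_nonneg hθ0 l)
      have h4 : (1 - θ ^ (l + 1)) * (2 * a) = (1 - θ ^ l) * (2 * a) + θ ^ l * (a / (K - 1 / 2)) := by
        rw [← h3]
        ring
      rw [h4, pow_succ]
      nlinarith
  have h1 := iter L le_rfl
  have h2 := mul_le_mul_of_nonneg_left (hNR L le_rfl) (pow_nonneg hθ0 L)
  have h4 : θ ^ L ≤ 1 := pow_le_one₀ hθ0 hθ1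
  have h5 : 0 ≤ θ ^ L := pow_nonneg hθ0 L
  have h6 : 0 ≤ a * θ ^ L := mul_nonneg ha h5
  have h7 : 2 * a ≤ K * a := mul_le_mul_of_nonneg_right hK2 ha
  nlinarith

/-- THE PURE LEMMA. The leaves of the root `(L, i)`: the sum of the squares. -/
theorem leaf_sq (hA : 0 < A) {L i : ℕ} {ε C1 C2 a : ℝ} (hC1 : 1 ≤ C1) (hC2 : 2 ≤ C2) (hε : ε * C1 ≤ 1 / 2)
    (hL : ((C1 * C2 - 1) / (C1 * C2 - 1 / 2)) ^ L * (C1 * C1) ≤ 1 / 8)
    (hc : ∀ x ∈ Ico (A ^ L * i) (A ^ L * (i + 1)), ∀ l ≤ L, 0 ≤ c l (x / A ^ l)) (ha : 0 ≤ a)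
    (hJ1 : ∀ x ∈ Ico (A ^ L * i) (A ^ L * (i + 1)), ∀ l < L,
      c (l + 1) (x / A ^ (l + 1)) ≤ ∑ j ∈ range A, c l (A * (x / A ^ (l + 1)) + j))
    (hJ2 : ∀ x ∈ Ico (A ^ L * i) (A ^ L * (i + 1)), ∀ l < L,
      c (l + 1) (x / A ^ (l + 1)) ≤ ε * c l (x / A ^ l) + C2 * sib A c x l)
    (hNR : ∀ x ∈ Ico (A ^ L * i) (A ^ L * (i + 1)), ∀ l ≤ L, chn A c x l ≤ C1 * c l (x / A ^ l) + a)
    (hNR' : ∑ x ∈ Ico (A ^ L * i) (A ^ L * (i + 1)), c 0 x ≤ C1 * c L i + a) :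
    ∑ x ∈ Ico (A ^ L * i) (A ^ L * (i + 1)), c 0 x ^ 2 ≤
      1 / 4 * c L i ^ 2 + (2 * (C1 + 2 * (C1 * C2) * C1) ^ 2 + 2 * (C1 * C2)) * a ^ 2 := by
  have hAL : 0 < A ^ L := pow_pos hA L
  obtain ⟨θ, hθ⟩ : ∃ θ : ℝ, θ = ((C1 * C2 - 1) / (C1 * C2 - 1 / 2)) ^ L := ⟨_, rfl⟩
  rw [← hθ] at hL
  have hK2 : 2 ≤ C1 * C2 := by nlinarith
  have hroot : ∀ x ∈ Ico (A ^ L * i) (A ^ L * (i + 1)), x / A ^ L = i := by
    intro x hx
    rw [mem_Ico] at hx
    refine Nat.div_eq_of_lt_le ?_ ?_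
    · rw [mul_comm]
      exact hx.1
    · rw [mul_comm]
      exact hx.2
  have hc0 : 0 ≤ c L i := by
    have h1 : A ^ L * i ∈ Ico (A ^ L * i) (A ^ L * (i + 1)) := by
      rw [mem_Ico]
      exact ⟨le_rfl, Nat.mul_lt_mul_of_pos_left (Nat.lt_succ_self i) hAL⟩
    have h2 := hc _ h1 L le_rfl
    rwa [hroot _ h1] at h2
  obtain ⟨R, hR⟩ : ∃ R : ℝ, R = c L i := ⟨_, rfl⟩
  rw [← hR] at hNR' hc0 ⊢
  have hmax : ∀ x ∈ Ico (A ^ L * i) (A ^ L * (i + 1)), c 0 x ≤ θ * (C1 * R) + 2 * (C1 * C2) * a := by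
    intro x hx
    have h1 := leaf_le hA hC1 hC2 hε (hc x hx) ha (hJ1 x hx) (hJ2 x hx) (hNR x hx)
    rw [hroot x hx, ← hθ, ← hR] at h1
    exact h1
  have hnn : ∀ x ∈ Ico (A ^ L * i) (A ^ L * (i + 1)), 0 ≤ c 0 x := by
    intro x hx
    have h1 := hc x hx 0 (Nat.zero_le _)
    rwa [pow_zero, Nat.div_one] at h1
  have h1 : ∑ x ∈ Ico (A ^ L * i) (A ^ L * (i + 1)), c 0 x ^ 2 ≤
      ∑ x ∈ Ico (A ^ L * i) (A ^ L * (i + 1)), (θ * (C1 * R) + 2 * (C1 * C2) * a) * c 0 x := by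
    refine sum_le_sum fun x hx => ?_
    rw [pow_two]
    exact mul_le_mul_of_nonneg_right (hmax x hx) (hnn x hx)
  rw [← mul_sum] at h1
  have hθ0 : 0 ≤ θ := by
    rw [hθ]
    exact pow_nonneg (div_nonneg (by linarith) (by linarith)) L
  have hm0 : 0 ≤ θ * (C1 * R) + 2 * (C1 * C2) * a := by positivity
  have h2 := mul_le_mul_of_nonneg_left hNR' hm0
  have h3 : (θ * (C1 * R) + 2 * (C1 * C2) * a) * (C1 * R + a) ≤
      1 / 4 * R ^ 2 + (2 * (C1 + 2 * (C1 * C2) * C1) ^ 2 + 2 * (C1 * C2)) * a ^ 2 := by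
    obtain ⟨Q, hQ⟩ : ∃ Q : ℝ, Q = C1 + 2 * (C1 * C2) * C1 := ⟨_, rfl⟩
    rw [← hQ]
    have h4 : θ * (C1 * C1) * R ^ 2 ≤ 1 / 8 * R ^ 2 := mul_le_mul_of_nonneg_right hL (sq_nonneg R)
    have h5 : θ * C1 * (R * a) ≤ C1 * (R * a) := by
      have h6 : θ ≤ 1 := by
        have h7 : θ * 1 ≤ θ * (C1 * C1) := mul_le_mul_of_nonneg_left (by nlinarith) hθ0
        linarith
      have h8 : 0 ≤ C1 * (R * a) := by positivity
      nlinarith
    have h6 : Q * (R * a) ≤ 1 / 8 * R ^ 2 + 2 * Q ^ 2 * a ^ 2 := by nlinarith [sq_nonneg (R / 4 - 2 * Q * a), sq_nonneg (R - 4 * Q * a)]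
    have h7 : (θ * (C1 * R) + 2 * (C1 * C2) * a) * (C1 * R + a) =
        θ * (C1 * C1) * R ^ 2 + θ * C1 * (R * a) + 2 * (C1 * C2) * C1 * (R * a) + 2 * (C1 * C2) * a ^ 2 := by ring
    rw [h7]
    have h8 : C1 * (R * a) + 2 * (C1 * C2) * C1 * (R * a) = Q * (R * a) := by
      rw [hQ]
      ring
    linarith
  linarith

/-! ### The costs of a path -/

/-- The cost of the block `(l, i)` of the path `p` (positions relative to the vertical at the multiples of the duration `m`). -/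
def cJ (J : ℝ → ℝ) (A : ℕ) (m : ℝ) (p : ℕ → ℝ) (l i : ℕ) : ℝ :=
  (A : ℝ) ^ l * m * J ((p (A ^ l * (i + 1)) - p (A ^ l * i)) / ((A : ℝ) ^ l * m))

/-- What is needed from the rate function. -/
structure RJ (J : ℝ → ℝ) (A : ℕ) (ε CD CB : ℝ) : Prop where
  cv : ConvexOn ℝ (Set.Icc (-(1 / 2) : ℝ) (1 / 2)) J
  nn : ∀ v, |v| ≤ 1 / 2 → 0 ≤ J v
  z0 : J 0 = 0
  dbl : ∀ v, |v| ≤ 1 / 4 → J (2 * v) ≤ CD * J v
  sup : ∀ v, |v| ≤ 1 / 2 → A * J (2 * v / A) ≤ ε * J v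
  big : ∀ v w, |v| ≤ 1 / 2 → 1 / 4 ≤ |w| → |w| ≤ 1 / 2 → J v ≤ CB * J w

/-- Two pieces: `D = P + sib`, durations `1 / A` and `1 - 1 / A`. -/
theorem RJ.two {J : ℝ → ℝ} {A : ℕ} {ε CD CB : ℝ} (h : RJ J A ε CD CB) (hA : 2 ≤ A) (hCB : 0 ≤ CB) {u v : ℝ}
    (hu : |u| ≤ 1 / 2) (hv : |v| ≤ 1 / 2) :
    A * J (u / A + (1 - 1 / A) * v) ≤ ε * J u + max (CD / 2) (2 * CB) * ((A - 1) * J v) := by
  have hA' : (2 : ℝ) ≤ A := by exact_mod_cast hA
  have hA0 : (0 : ℝ) < A := by linarith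
  have hAi : 1 / (A : ℝ) ≤ 1 / 2 := by
    rw [div_le_div_iff₀ hA0 (by norm_num)]
    linarith
  have hAi0 : 0 < 1 / (A : ℝ) := by positivity
  have hJu := h.nn u hu
  have hJv := h.nn v hv
  obtain ⟨hu1, hu2⟩ := abs_le.1 hu
  obtain ⟨hv1, hv2⟩ := abs_le.1 hv
  have hεJ : 0 ≤ ε * J u := by
    have h1 := h.sup u hu
    have h2 : 0 ≤ J (2 * u / A) := by
      refine h.nn _ ?_
      rw [abs_div, abs_mul, abs_of_pos hA0, abs_two, div_le_iff₀ hA0]
      nlinarith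
    have h3 : 0 ≤ A * J (2 * u / A) := mul_nonneg hA0.le h2
    linarith
  rcases le_or_gt |v| (1 / 4) with h4 | h4
  · obtain ⟨hv3, hv4⟩ := abs_le.1 h4
    have e1 : u / A + (1 - 1 / A) * v = (1 / 2 : ℝ) • (2 * u / A) + (1 / 2 : ℝ) • (2 * ((1 - 1 / A) * v)) := by
      simp only [smul_eq_mul]
      ring
    have m1 : 2 * u / A ∈ Set.Icc (-(1 / 2) : ℝ) (1 / 2) := by
      constructor
      · rw [le_div_iff₀ hA0]
        nlinarith
      · rw [div_le_iff₀ hA0]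
        nlinarith
    have m2 : 2 * ((1 - 1 / A) * v) ∈ Set.Icc (-(1 / 2) : ℝ) (1 / 2) := by
      constructor <;> nlinarith
    have h5 := h.cv.2 m1 m2 (by norm_num : (0 : ℝ) ≤ 1 / 2) (by norm_num : (0 : ℝ) ≤ 1 / 2) (by norm_num)
    rw [← e1] at h5
    simp only [smul_eq_mul] at h5
    have h6 : J (2 * ((1 - 1 / A) * v)) ≤ (1 - 1 / A) * J (2 * v) := by
      have m3 : 2 * v ∈ Set.Icc (-(1 / 2) : ℝ) (1 / 2) := ⟨by linarith, by linarith⟩
      have m4 : (0 : ℝ) ∈ Set.Icc (-(1 / 2) : ℝ) (1 / 2) := ⟨by norm_num, by norm_num⟩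
      have h7 := h.cv.2 m3 m4 (by linarith : (0 : ℝ) ≤ 1 - 1 / A) hAi0.le (by ring)
      simp only [smul_eq_mul, mul_zero, add_zero] at h7
      rw [h.z0, mul_zero, add_zero] at h7
      have e2 : (1 - 1 / (A : ℝ)) * (2 * v) = 2 * ((1 - 1 / A) * v) := by ring
      rw [e2] at h7
      exact h7
    have h7 := h.dbl v h4
    have h8 := h.sup u hu
    have h9 : (1 - 1 / (A : ℝ)) * J (2 * v) ≤ (1 - 1 / A) * (CD * J v) :=
      mul_le_mul_of_nonneg_left h7 (by linarith)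
    have h10 : A * J (u / A + (1 - 1 / A) * v) ≤ A * (1 / 2 * J (2 * u / A) + 1 / 2 * ((1 - 1 / A) * (CD * J v))) := by
      refine mul_le_mul_of_nonneg_left ?_ hA0.le
      linarith
    have e3 : A * (1 / 2 * J (2 * u / A) + 1 / 2 * ((1 - 1 / A) * (CD * J v))) =
        1 / 2 * (A * J (2 * u / A)) + CD / 2 * ((A - 1) * J v) := by
      field_simp
    rw [e3] at h10
    have h11 : CD / 2 * ((A - 1) * J v) ≤ max (CD / 2) (2 * CB) * ((A - 1) * J v) :=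
      mul_le_mul_of_nonneg_right (le_max_left _ _) (mul_nonneg (by linarith) hJv)
    linarith
  · have h5 : |u / A + (1 - 1 / A) * v| ≤ 1 / 2 := by
      rw [abs_le]
      have e1 : u / A = 1 / A * u := by ring
      rw [e1]
      constructor <;> nlinarith
    have h6 := h.big _ v h5 h4.le hv
    have h7 : A * J (u / A + (1 - 1 / A) * v) ≤ A * (CB * J v) := mul_le_mul_of_nonneg_left h6 hA0.le
    have h8 : A * (CB * J v) ≤ 2 * CB * ((A - 1) * J v) := by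
      have h9 : 0 ≤ CB * J v := mul_nonneg hCB hJv
      nlinarith
    have h9 : 2 * CB * ((A - 1) * J v) ≤ max (CD / 2) (2 * CB) * ((A - 1) * J v) :=
      mul_le_mul_of_nonneg_right (le_max_right _ _) (mul_nonneg (by linarith) hJv)
    linarith

/-- Jensen for equal durations. -/
theorem jensen_eq {J : ℝ → ℝ} (hcv : ConvexOn ℝ (Set.Icc (-(1 / 2) : ℝ) (1 / 2)) J) {ι : Type*} (t : Finset ι)
    (ht : t.Nonempty) {r : ℝ} (hr : 0 < r) {δ : ι → ℝ} (hδ : ∀ j ∈ t, |δ j| ≤ r / 2) :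
    t.card * r * J ((∑ j ∈ t, δ j) / (t.card * r)) ≤ ∑ j ∈ t, r * J (δ j / r) := by
  have hk : (0 : ℝ) < t.card := by exact_mod_cast ht.card_pos
  have h1 := hcv.map_sum_le (t := t) (w := fun _ => 1 / (t.card : ℝ)) (p := fun j => δ j / r)
    (fun j _ => by positivity) (by
      rw [Finset.sum_const, nsmul_eq_mul]
      field_simp) (fun j hj => by
      have h2 := abs_le.1 (hδ j hj)
      constructor
      · rw [le_div_iff₀ hr]
        linarith
      · rw [div_le_iff₀ hr]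
        linarith)
  simp only [smul_eq_mul] at h1
  rw [← Finset.mul_sum, ← Finset.mul_sum] at h1
  have e1 : 1 / (t.card : ℝ) * ∑ j ∈ t, δ j / r = (∑ j ∈ t, δ j) / (t.card * r) := by
    rw [← Finset.sum_div]
    field_simp
  rw [e1] at h1
  have h2 := mul_le_mul_of_nonneg_left h1 (mul_nonneg hk.le hr.le)
  refine h2.trans (le_of_eq ?_)
  rw [← Finset.mul_sum]
  field_simp

/-- The slopes of all the blocks. -/
theorem slope_le {A : ℕ} {m : ℝ} {p : ℕ → ℝ} (hp : ∀ i, |p (i + 1) - p i| ≤ m / 2) (i k : ℕ) :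
    |p (i + k) - p i| ≤ k * m / 2 := by
  induction k with
  | zero => simp
  | succ k ih =>
    have h1 : p (i + (k + 1)) - p i = (p (i + k + 1) - p (i + k)) + (p (i + k) - p i) := by
      rw [← add_assoc]
      ring
    rw [h1]
    refine (abs_add_le _ _).trans ?_
    have h2 := hp (i + k)
    push_cast
    linarith

theorem slope_blk {A : ℕ} {m : ℝ} {p : ℕ → ℝ} (hp : ∀ i, |p (i + 1) - p i| ≤ m / 2) (l i : ℕ) :
    |p (A ^ l * (i + 1)) - p (A ^ l * i)| ≤ (A : ℝ) ^ l * m / 2 := by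
  have h1 := slope_le (A := A) hp (A ^ l * i) (A ^ l)
  have e1 : A ^ l * (i + 1) = A ^ l * i + A ^ l := by ring
  rw [e1]
  push_cast at h1
  exact h1

/-- The displacement of a block is the sum of the displacements of its children. -/
theorem sum_disp (A : ℕ) (p : ℕ → ℝ) (l i : ℕ) :
    ∑ j ∈ range A, (p (A ^ l * (A * i + j + 1)) - p (A ^ l * (A * i + j))) =
      p (A ^ (l + 1) * (i + 1)) - p (A ^ (l + 1) * i) := by
  have h1 := Finset.sum_range_sub (fun j => p (A ^ l * (A * i + j))) A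
  have e1 : A ^ l * (A * i + A) = A ^ (l + 1) * (i + 1) := by ring
  have e2 : A ^ l * (A * i + 0) = A ^ (l + 1) * i := by ring
  rw [e1, e2] at h1
  rw [← h1]
  exact Finset.sum_congr rfl fun j _ => rfl

/-- (J1). -/
theorem cJ_one {J : ℝ → ℝ} {A : ℕ} {ε CD CB : ℝ} (h : RJ J A ε CD CB) (hA : 2 ≤ A) {m : ℝ} (hm : 0 < m) {p : ℕ → ℝ}
    (hp : ∀ i, |p (i + 1) - p i| ≤ m / 2) (l i : ℕ) :
    cJ J A m p (l + 1) i ≤ ∑ j ∈ range A, cJ J A m p l (A * i + j) := by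
  have hA0 : (0 : ℝ) < A := by exact_mod_cast (show 0 < A by omega)
  have hr : 0 < (A : ℝ) ^ l * m := by positivity
  have h1 := jensen_eq h.cv (range A) ⟨0, Finset.mem_range.2 (by omega)⟩ hr
    (δ := fun j => p (A ^ l * (A * i + j + 1)) - p (A ^ l * (A * i + j))) (fun j _ => slope_blk hp l (A * i + j))
  rw [Finset.card_range, sum_disp] at h1
  unfold cJ
  have e1 : (A : ℝ) ^ (l + 1) * m = A * ((A : ℝ) ^ l * m) := by ring
  rw [e1]
  exact h1

/-- (J2). -/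
theorem cJ_two {J : ℝ → ℝ} {A : ℕ} {ε CD CB : ℝ} (h : RJ J A ε CD CB) (hA : 2 ≤ A) (hCB : 0 ≤ CB) {m : ℝ} (hm : 0 < m)
    {p : ℕ → ℝ} (hp : ∀ i, |p (i + 1) - p i| ≤ m / 2) (x l : ℕ) :
    cJ J A m p (l + 1) (x / A ^ (l + 1)) ≤ ε * cJ J A m p l (x / A ^ l) +
      max (CD / 2) (2 * CB) * sib A (cJ J A m p) x l := by
  have hA' : (2 : ℝ) ≤ A := by exact_mod_cast hA
  have hA0 : (0 : ℝ) < A := by linarith
  have hr : 0 < (A : ℝ) ^ l * m := by positivity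
  obtain ⟨r, hrr⟩ : ∃ r : ℝ, r = (A : ℝ) ^ l * m := ⟨_, rfl⟩
  rw [← hrr] at hr
  obtain ⟨i, hi⟩ : ∃ i : ℕ, i = x / A ^ (l + 1) := ⟨_, rfl⟩
  obtain ⟨j0, hj0⟩ : ∃ j0 : ℕ, j0 = x / A ^ l % A := ⟨_, rfl⟩
  have hanc : x / A ^ l = A * i + j0 := by rw [hi, hj0, anc]
  have hj0A : j0 ∈ range A := by
    rw [Finset.mem_range, hj0]
    exact Nat.mod_lt _ (by omega)
  obtain ⟨δ, hδ⟩ : ∃ δ : ℕ → ℝ, δ = fun j => p (A ^ l * (A * i + j + 1)) - p (A ^ l * (A * i + j)) := ⟨_, rfl⟩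
  have hδr : ∀ j, |δ j| ≤ r / 2 := fun j => by
    rw [hδ, hrr]
    exact slope_blk hp l (A * i + j)
  have hcard : ((range A).erase j0).card = A - 1 := by rw [Finset.card_erase_of_mem hj0A, Finset.card_range]
  have hcard' : (((range A).erase j0).card : ℝ) = A - 1 := by
    rw [hcard, Nat.cast_sub (by omega)]
    simp
  have hne : ((range A).erase j0).Nonempty := by
    rw [← Finset.card_pos, hcard]
    omega
  have hA1 : (0 : ℝ) < A - 1 := by linarith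
  have h1 := jensen_eq h.cv _ hne hr (δ := δ) (fun j _ => hδr j)
  rw [hcard'] at h1
  obtain ⟨sg, hsg⟩ : ∃ sg : ℝ, sg = ∑ j ∈ (range A).erase j0, δ j := ⟨_, rfl⟩
  rw [← hsg] at h1
  have hsg1 : |sg| ≤ (A - 1) * (r / 2) := by
    rw [hsg]
    refine (Finset.abs_sum_le_sum_abs _ _).trans ((Finset.sum_le_sum fun j _ => hδr j).trans ?_)
    rw [Finset.sum_const, nsmul_eq_mul, hcard']
  have hu : |δ j0 / r| ≤ 1 / 2 := by
    rw [abs_div, abs_of_pos hr, div_le_iff₀ hr]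
    linarith [hδr j0]
  have hv : |sg / ((A - 1) * r)| ≤ 1 / 2 := by
    rw [abs_div, abs_of_pos (mul_pos hA1 hr), div_le_iff₀ (mul_pos hA1 hr)]
    linarith
  have h2 := h.two hA hCB hu hv
  have e1 : δ j0 / r / A + (1 - 1 / A) * (sg / ((A - 1) * r)) =
      (p (A ^ (l + 1) * (i + 1)) - p (A ^ (l + 1) * i)) / (A * r) := by
    have e2 : p (A ^ (l + 1) * (i + 1)) - p (A ^ (l + 1) * i) = δ j0 + sg := by
      rw [← sum_disp, hsg, hδ]
      exact (Finset.add_sum_erase _ _ hj0A).symm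
    rw [e2]
    field_simp
  rw [e1] at h2
  have h3 := mul_le_mul_of_nonneg_left h2 hr.le
  rw [← hi, hanc]
  have e3 : cJ J A m p (l + 1) i = r * (A * J ((p (A ^ (l + 1) * (i + 1)) - p (A ^ (l + 1) * i)) / (A * r))) := by
    unfold cJ
    have e4 : (A : ℝ) ^ (l + 1) * m = A * r := by
      rw [hrr]
      ring
    rw [e4]
    ring
  have e5 : cJ J A m p l (A * i + j0) = r * J (δ j0 / r) := by
    unfold cJ
    rw [← hrr, hδ]
  have e6 : sib A (cJ J A m p) x l = ∑ j ∈ (range A).erase j0, r * J (δ j / r) := by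
    unfold sib
    rw [← hj0, ← hi]
    refine Finset.sum_congr rfl fun j _ => ?_
    unfold cJ
    rw [← hrr, hδ]
  rw [e3, e5, e6]
  have h4 : max (CD / 2) (2 * CB) * ((A - 1) * r * J (sg / ((A - 1) * r))) ≤
      max (CD / 2) (2 * CB) * ∑ j ∈ (range A).erase j0, r * J (δ j / r) :=
    mul_le_mul_of_nonneg_left h1 (le_max_of_le_right (by linarith))
  linarith

/-- THE STEEP STEPS. There are a depth `L` and a constant `C3` such that: if the cost of every chain partition and of the finest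
partition of the block is at most `C1` times the cost of the block plus `a`, then the sum of the squares of the costs of the finest
partition is at most a quarter of the square of the cost of the block plus `C3 a ^ 2`. -/
theorem leaf_J {CD CB C1 : ℝ} (hCB : 0 ≤ CB) (hC1 : 1 ≤ C1) :
    ∃ (L : ℕ) (C3 : ℝ), 0 ≤ C3 ∧ ∀ (J : ℝ → ℝ) (A : ℕ) (ε : ℝ), 2 ≤ A → ε * C1 ≤ 1 / 2 → RJ J A ε CD CB →
      ∀ (m : ℝ) (p : ℕ → ℝ) (i : ℕ) (a : ℝ), 0 < m → 0 ≤ a → (∀ i, |p (i + 1) - p i| ≤ m / 2) →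
      (∀ x ∈ Ico (A ^ L * i) (A ^ L * (i + 1)), ∀ l ≤ L,
        chn A (cJ J A m p) x l ≤ C1 * cJ J A m p l (x / A ^ l) + a) →
      ∑ x ∈ Ico (A ^ L * i) (A ^ L * (i + 1)), cJ J A m p 0 x ≤ C1 * cJ J A m p L i + a →
      ∑ x ∈ Ico (A ^ L * i) (A ^ L * (i + 1)), cJ J A m p 0 x ^ 2 ≤ 1 / 4 * cJ J A m p L i ^ 2 + C3 * a ^ 2 := by
  obtain ⟨C2, hC2⟩ : ∃ C2 : ℝ, C2 = max 2 (max (CD / 2) (2 * CB)) := ⟨_, rfl⟩
  have hC22 : 2 ≤ C2 := by
    rw [hC2]
    exact le_max_left _ _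
  have hK : 2 ≤ C1 * C2 := by nlinarith
  obtain ⟨θ, hθ⟩ : ∃ θ : ℝ, θ = (C1 * C2 - 1) / (C1 * C2 - 1 / 2) := ⟨_, rfl⟩
  have hD : 0 < C1 * C2 - 1 / 2 := by linarith
  have hθ0 : 0 ≤ θ := by
    rw [hθ]
    exact div_nonneg (by linarith) hD.le
  have hθ1 : θ < 1 := by
    rw [hθ, div_lt_one hD]
    linarith
  obtain ⟨L, hL⟩ := exists_pow_lt_of_lt_one (show (0 : ℝ) < 1 / 8 / (C1 * C1) by positivity) hθ1
  refine ⟨L, 2 * (C1 + 2 * (C1 * C2) * C1) ^ 2 + 2 * (C1 * C2), by positivity, ?_⟩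
  intro J A ε hA hε h m p i a hm ha hp hNR hNR'
  have hL' : ((C1 * C2 - 1) / (C1 * C2 - 1 / 2)) ^ L * (C1 * C1) ≤ 1 / 8 := by
    rw [← hθ]
    rw [lt_div_iff₀ (by positivity)] at hL
    exact hL.le
  have hnn : ∀ l i, 0 ≤ cJ J A m p l i := by
    intro l i
    have hA0 : (0 : ℝ) < A := by exact_mod_cast (show 0 < A by omega)
    have hr : 0 < (A : ℝ) ^ l * m := by positivity
    unfold cJ
    refine mul_nonneg hr.le (h.nn _ ?_)
    rw [abs_div, abs_of_pos hr, div_le_iff₀ hr]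
    linarith [slope_blk (A := A) hp l i]
  refine leaf_sq (by omega) hC1 hC22 hε hL' (fun x _ l _ => hnn _ _) ha
    (fun x _ l _ => cJ_one h hA hm hp l _) (fun x _ l _ => ?_) hNR hNR'
  refine (cJ_two h hA hCB hm hp x l).trans (add_le_add le_rfl ?_)
  refine mul_le_mul_of_nonneg_right ?_ (Finset.sum_nonneg fun j _ => hnn _ _)
  rw [hC2]
  exact le_max_right _ _

end

end Pool.Agent.W_7d29a1_X
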