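import Pool.Agent.W_7d29a1_X.NR89
import Pool.Agent.W_7d29a1_XT.Node

/-!
STORM X, (ES'), piece (E5) = (H1) = (NR), in the form consumed by helper27's `XES.es_cost` / `ESF.esf_of`. (helper89)
-/

namespace Pool.Agent.W_7d29a1_X

open Finset Pool.Agent.W_7d29a1_F Pool.Agent.W_7d29a1_X50 Pool.Agent.W_7d29a1_XT

set_option maxHeartbeats 400000

noncomputable section

variable {μ : MeasureTheory.Measure ℝ} {s : ℝ}

theorem ex_replicate (c : ℕ → ℤ → ℕ → ℤ → ℝ) (S : Finset ℕ) (a d T : ℕ) :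
    ex c S a (List.replicate T d) =
      ∑ r ∈ range T, c (a + r * d) (pos S (a + r * d)) d (pos S (a + r * d + d) - pos S (a + r * d)) := by
  induction T generalizing a with
  | zero => rw [List.replicate_zero, ex_nil, range_zero, sum_empty]
  | succ T ih =>
    rw [List.replicate_succ, ex_cons, ih, sum_range_succ', add_comm, Nat.zero_mul, Nat.add_zero]
    congr 1
    refine sum_congr rfl fun r _ => ?_
    rw [show a + d + r * d = a + (r + 1) * d by ring]

/-- (H1) of the forest, for every environment: the hypothesis `hE` of `es_cost` and `esf_of`. -/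
theorem hE_of (T : ℕ) (η : Env) (N a d : ℕ) (hT : 1 ≤ T) (hd : 1 ≤ d) (h : a + T * d ≤ N) :
    ∑ S ∈ (range N).powerset, GS μ 0 η N S *
      (max (∑ r ∈ range T, XC μ (a + r * d) d η S - XC μ a (T * d) η S) 0) ^ 2 ≤
      6 * (T : ℝ) ^ 2 * (Real.log N + 1) ^ 2 := by
  obtain ⟨k, rfl⟩ : ∃ k, N = a + T * d + k := ⟨N - (a + T * d), by omega⟩
  have hs : (List.replicate T d).sum = T * d := by rw [List.sum_replicate, smul_eq_mul]
  have h1 := nr_sq (μ := μ) (s := 0) η a k (c := fun t x d y => X μ 0 η ((t : ℤ), x) d y) (List.replicate T d)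
    (fun u e he _ _ x y h0 h1 => by
      have h2 := W_pos (μ := μ) (s := 0) η ((u : ℤ), x) h0 h1
      unfold X
      rw [Real.exp_neg, Real.exp_log h2, mul_inv_cancel₀ h2.ne'])
  rw [hs, List.length_replicate] at h1
  have hT1 : (1 : ℝ) ≤ T := by exact_mod_cast hT
  have hN1 : 1 ≤ a + T * d + k := by
    have := Nat.mul_le_mul hT hd
    omega
  have hNr : (1 : ℝ) ≤ ((a + T * d + k : ℕ) : ℝ) := by exact_mod_cast hN1
  have hL : 0 ≤ Real.log ((a + T * d + k : ℕ) : ℝ) := Real.log_nonneg hNr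
  have h3 : Real.log (((T * d : ℕ) : ℝ) + 1) ≤ Real.log ((a + T * d + k : ℕ) : ℝ) + 1 := by
    have h4 : (((T * d : ℕ) : ℝ) + 1) ≤ ((a + T * d + k : ℕ) : ℝ) * Real.exp 1 := by
      have h5 : (2 : ℝ) ≤ Real.exp 1 := by
        have := Real.add_one_le_exp (1 : ℝ)
        linarith
      have h6 : (((T * d : ℕ) : ℝ)) ≤ ((a + T * d + k : ℕ) : ℝ) := by exact_mod_cast (by omega)
      nlinarith
    have h7 := Real.log_le_log (by positivity) h4
    rw [Real.log_mul (by linarith) (Real.exp_pos 1).ne', Real.log_exp] at h7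
    exact h7
  have h4 : 0 ≤ Real.log (((T * d : ℕ) : ℝ) + 1) := Real.log_nonneg (by
    have : (0 : ℝ) ≤ ((T * d : ℕ) : ℝ) := Nat.cast_nonneg _
    linarith)
  have h5 : ∑ S ∈ (range (a + T * d + k)).powerset, GS μ 0 η (a + T * d + k) S *
      (max (∑ r ∈ range T, XC μ (a + r * d) d η S - XC μ a (T * d) η S) 0) ^ 2 =
      ∑ S ∈ (range (a + T * d + k)).powerset, GS μ 0 η (a + T * d + k) S *
      (max (ex (fun t x d y => X μ 0 η ((t : ℤ), x) d y) S a (List.replicate T d) -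
        X μ 0 η ((a : ℤ), pos S a) (T * d) (pos S (a + T * d) - pos S a)) 0) ^ 2 := by
    refine sum_congr rfl fun S _ => ?_
    rw [ex_replicate]
    rfl
  rw [h5]
  refine h1.trans ?_
  have h6 : (T * Real.log (((T * d : ℕ) : ℝ) + 1)) ^ 2 ≤ (T * (Real.log ((a + T * d + k : ℕ) : ℝ) + 1)) ^ 2 :=
    pow_le_pow_left₀ (by positivity) (mul_le_mul_of_nonneg_left h3 (by linarith)) 2
  have h7 : 1 ≤ (T * (Real.log ((a + T * d + k : ℕ) : ℝ) + 1)) ^ 2 := by
    refine one_le_pow₀ ?_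
    nlinarith
  have h8 : 6 * (T : ℝ) ^ 2 * (Real.log ((a + T * d + k : ℕ) : ℝ) + 1) ^ 2 =
      6 * (T * (Real.log ((a + T * d + k : ℕ) : ℝ) + 1)) ^ 2 := by ring
  rw [h8]
  linarith

end

end Pool.Agent.W_7d29a1_X
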